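import Pool.Agent.Q37.FS.Res

/-!
# Base change (job BC)
-/

namespace Pool.Agent.Q37.FS

open Pool.Agent.Q37.PC CategoryTheory CategoryTheory.Abelian TensorProduct

section

variable {A : Type} [CommRing A]

section
open Module
lemma flat_ker {P X : Type} [AddCommGroup P] [Module A P] [AddCommGroup X] [Module A X]
    [Module.Flat A P] [Module.Flat A X] (π : P →ₗ[A] X) (hπ : Function.Surjective π) :
    Module.Flat A (LinearMap.ker π) := by
  rw [Module.Flat.iff_lTensor_preserves_injective_linearMap]
  intro N N' _ _ _ _ f hf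
  have h1 : Function.Injective ((LinearMap.ker π).subtype.rTensor N) := by
    rw [← LinearMap.lTensor_inj_iff_rTensor_inj]
    exact LinearMap.lTensor_injective_of_exact_of_flat π hπ (LinearMap.ker π).subtype
      (Submodule.injective_subtype _) (LinearMap.exact_subtype_ker_map π) N
  have h2 : Function.Injective (f.lTensor P) :=
    Module.Flat.lTensor_preserves_injective_linearMap f hf
  have h3 : ((LinearMap.ker π).subtype.rTensor N') ∘ₗ (f.lTensor (LinearMap.ker π)) =
      (f.lTensor P) ∘ₗ ((LinearMap.ker π).subtype.rTensor N) := by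
    ext x y
    simp
  have h4 : Function.Injective (((LinearMap.ker π).subtype.rTensor N') ∘ₗ
      (f.lTensor (LinearMap.ker π))) := by
    rw [h3]
    exact h2.comp h1
  exact Function.Injective.of_comp h4

lemma lTensor_inj {K P X : Type} [AddCommGroup K] [Module A K] [AddCommGroup P] [Module A P]
    [AddCommGroup X] [Module A X] [Module.Flat A X] (f : K →ₗ[A] P) (g : P →ₗ[A] X)
    (hf : Function.Injective f) (hg : Function.Surjective g) (h : Function.Exact f g)
    (R : Type) [AddCommGroup R] [Module A R] : Function.Injective (f.lTensor R) :=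
  LinearMap.lTensor_injective_of_exact_of_flat g hg f hf h R
end

variable {K P X : Type} [AddCommGroup K] [Module A K] [AddCommGroup P] [Module A P]
  [AddCommGroup X] [Module A X] (f : K →ₗ[A] P) (g : P →ₗ[A] X)
  (R : Type) [CommRing R] [Algebra A R]

lemma bc_exact (hg : Function.Surjective g) (h : Function.Exact f g) :
    Function.Exact (f.baseChange R) (g.baseChange R) := by
  rw [LinearMap.baseChange_eq_ltensor, LinearMap.baseChange_eq_ltensor]
  exact lTensor_exact R h hg

lemma bc_surj (hg : Function.Surjective g) : Function.Surjective (g.baseChange R) := by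
  rw [LinearMap.baseChange_eq_ltensor]
  exact LinearMap.lTensor_surjective R hg

lemma bc_inj [Module.Flat A X] (hf : Function.Injective f) (hg : Function.Surjective g)
    (h : Function.Exact f g) : Function.Injective (f.baseChange R) := by
  rw [LinearMap.baseChange_eq_ltensor]
  exact lTensor_inj f g hf hg h R

variable {Y : Type} [AddCommGroup Y] [Module R Y] [Module A Y] [IsScalarTower A R Y]

lemma bc_ext {R : Type} [CommRing R] [Algebra A R] [Module R Y] [IsScalarTower A R Y]
    (φ ψ : R ⊗[A] X →ₗ[R] Y) (h : ∀ x, φ (1 ⊗ₜ x) = ψ (1 ⊗ₜ x)) : φ = ψ := by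
  refine TensorProduct.AlgebraTensorModule.ext fun r x => ?_
  rw [show (r ⊗ₜ[A] x : R ⊗[A] X) = r • ((1 : R) ⊗ₜ x) by
    rw [TensorProduct.smul_tmul', smul_eq_mul, mul_one], map_smul, map_smul, h]

lemma bc_zero (h : EV A 0 X Y) : EV R 0 (R ⊗[A] X) Y := by
  rw [ev0_iff] at h ⊢
  intro φ
  have h1 := h ((φ.restrictScalars A) ∘ₗ (TensorProduct.mk A R X 1))
  refine bc_ext _ _ fun x => ?_
  exact LinearMap.congr_fun h1 x

lemma bc_one [Module.Projective A P] [Module.Flat A X] (hf : Function.Injective f)
    (hg : Function.Surjective g)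
    (h : Function.Exact f g) (h1 : EV A 1 X Y) : EV R 1 (R ⊗[A] X) Y := by
  refine EV.of_extend (bc_exact f g R hg h) (bc_inj f g R hf hg h) (bc_surj g R hg)
    (EV.of_projective 0) fun φ => ?_
  obtain ⟨ψ, hψ⟩ := h1.extend h hf hg
    ((φ.restrictScalars A) ∘ₗ (TensorProduct.mk A R K 1))
  refine ⟨LinearMap.liftBaseChange R ψ, ?_⟩
  refine bc_ext _ _ fun x => ?_
  have h2 : ψ (f x) = φ ((1 : R) ⊗ₜ x) := LinearMap.congr_fun hψ x
  rw [LinearMap.comp_apply, LinearMap.baseChange_tmul, LinearMap.liftBaseChange_tmul, one_smul, h2]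

end

theorem t_BC : J_BC := by
  intro A R _ _ _ X Y _ _ _ _ _ _ _ j
  have key : ∀ j, ∀ (X : Type) [AddCommGroup X] [Module A X] [Module.Flat A X],
      EV A j X Y → EV R j (R ⊗[A] X) Y := by
    intro j
    induction j with
    | zero =>
      intro X _ _ _ h
      exact bc_zero R h
    | succ j ih =>
      intro X _ _ _ h
      obtain ⟨P, _, _, _, π, hπ⟩ : ∃ (P : Type) (_ : AddCommGroup P) (_ : Module A P)
          (_ : Module.Free A P) (π : P →ₗ[A] X), Function.Surjective π :=
        ⟨X →₀ A, inferInstance, inferInstance, inferInstance,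
          Finsupp.linearCombination A (fun x : X => x),
          Finsupp.linearCombination_surjective _ Function.surjective_id⟩
      have hK : Module.Flat A (LinearMap.ker π) := flat_ker π hπ
      have hex : Function.Exact (LinearMap.ker π).subtype π := LinearMap.exact_subtype_ker_map π
      have hi := Submodule.injective_subtype (LinearMap.ker π)
      rcases j with _ | j
      · exact bc_one (LinearMap.ker π).subtype π R hi hπ hex h
      · refine EV.con3 (bc_exact (LinearMap.ker π).subtype π R hπ hex)
          (bc_inj (LinearMap.ker π).subtype π R hi hπ hex) (bc_surj π R hπ)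
          (ih _ ?_) (EV.of_projective _)
        exact EV.con1 hex hi hπ (EV.of_projective _) h
  exact key j X

end Pool.Agent.Q37.FS
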