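import Pool.Agent.Q37.FS.Stm

/-!
# The block ring (job BLOCK)
-/

namespace Pool.Agent.Q37.FS

open TensorProduct

section

variable (k I : Type) [Field k]

/-- the generators -/
inductive Gen (I : Type) : Type
  | s (i : I) : Gen I
  | t (i : I) : Gen I
  | a (i j : I) : Gen I
  | b (i j : I) : Gen I

/-- the symmetry -/
def Gen.swap {I : Type} : Gen I → Gen I
  | .s i => .t i
  | .t i => .s i
  | .a i j => .b j i
  | .b i j => .a j i

lemma Gen.swap_swap {I : Type} (g : Gen I) : g.swap.swap = g := by
  cases g <;> rfl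

/-- the monomials in the `t i` -/
noncomputable abbrev MT : Submonoid (MvPolynomial (I ⊕ (I × I)) k) :=
  Submonoid.closure (Set.range fun i => MvPolynomial.X (Sum.inl i))

/-- `k[t^±][a]` -/
abbrev DD : Type := Localization (MT k I)

/-- `k[t^±][a][s]` -/
abbrev VV : Type := MvPolynomial I (DD k I)

lemma MT_le : MT k I ≤ nonZeroDivisors (MvPolynomial (I ⊕ (I × I)) k) := by
  rw [Submonoid.closure_le]
  rintro _ ⟨i, rfl⟩
  exact mem_nonZeroDivisors_of_ne_zero (MvPolynomial.X_ne_zero _)

instance : IsDomain (DD k I) := IsLocalization.isDomain_localization (MT_le k I)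

variable {k I}

noncomputable def dt (i : I) : DD k I :=
  algebraMap (MvPolynomial (I ⊕ (I × I)) k) (DD k I) (MvPolynomial.X (Sum.inl i))

noncomputable def da (i j : I) : DD k I :=
  algebraMap (MvPolynomial (I ⊕ (I × I)) k) (DD k I) (MvPolynomial.X (Sum.inr (i, j)))

lemma dt_unit (i : I) : IsUnit (dt i : DD k I) :=
  IsLocalization.map_units (DD k I)
    (⟨MvPolynomial.X (Sum.inl i), Submonoid.subset_closure ⟨i, rfl⟩⟩ : MT k I)

noncomputable def dti (i : I) : DD k I := (dt_unit i).unit⁻¹.1

lemma dt_mul_dti (i : I) : (dt i : DD k I) * dti i = 1 := (dt_unit i).mul_val_inv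

/-- the four families in `V` -/
noncomputable def val : Gen I → VV k I
  | .s i => MvPolynomial.X i
  | .t i => MvPolynomial.C (dt i)
  | .a i j => MvPolynomial.C (da i j)
  | .b i j => (1 - MvPolynomial.C (da i j) * MvPolynomial.X i) * MvPolynomial.C (dti j)

variable (k I) in
noncomputable def Phi : MvPolynomial (Gen I) k →ₐ[k] VV k I := MvPolynomial.aeval val

lemma rel (i j : I) : val (k := k) (.a i j) * val (.s i) + val (.b i j) * val (.t j) = 1 := by
  have h1 : (MvPolynomial.C (dti j) : VV k I) * MvPolynomial.C (dt j) = 1 := by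
    rw [← map_mul, mul_comm, dt_mul_dti, map_one]
  simp only [val]
  rw [mul_assoc, h1, mul_one]
  ring

variable (k I) in
abbrev FF : Type := FractionRing (VV k I)

/-- the symmetry on `D` -/
noncomputable def thD₀ : MvPolynomial (I ⊕ (I × I)) k →ₐ[k] FF k I :=
  MvPolynomial.aeval (Sum.elim (fun i => algebraMap (VV k I) (FF k I) (val (.s i)))
    (fun p => algebraMap (VV k I) (FF k I) (val (.b p.2 p.1))))

lemma s_ne (i : I) : algebraMap (VV k I) (FF k I) (val (.s i)) ≠ 0 := by
  rw [Ne, map_eq_zero_iff _ (IsFractionRing.injective (VV k I) (FF k I))]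
  exact MvPolynomial.X_ne_zero i

lemma thD₀_unit (y : MT k I) : IsUnit (thD₀ (y : MvPolynomial (I ⊕ (I × I)) k) : FF k I) := by
  obtain ⟨y, hy⟩ := y
  change IsUnit (thD₀ y)
  induction hy using Submonoid.closure_induction with
  | mem y hy =>
    obtain ⟨i, rfl⟩ := hy
    rw [isUnit_iff_ne_zero, thD₀, MvPolynomial.aeval_X]
    exact s_ne i
  | one => rw [map_one]; exact isUnit_one
  | mul x y _ _ hx hy => rw [map_mul]; exact hx.mul hy

noncomputable def thD : DD k I →+* FF k I :=
  IsLocalization.lift (M := MT k I) (S := DD k I)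
    (g := ((thD₀ : _ →ₐ[k] FF k I) : MvPolynomial (I ⊕ (I × I)) k →+* FF k I)) thD₀_unit

lemma thD_alg (p : MvPolynomial (I ⊕ (I × I)) k) :
    (thD : DD k I →+* FF k I) (algebraMap _ _ p) = thD₀ p :=
  IsLocalization.lift_eq thD₀_unit p

lemma thD_dt (i : I) : (thD : DD k I →+* FF k I) (dt i) = algebraMap (VV k I) _ (val (.s i)) := by
  rw [dt, thD_alg, thD₀, MvPolynomial.aeval_X]
  rfl

lemma thD_da (i j : I) :
    (thD : DD k I →+* FF k I) (da i j) = algebraMap (VV k I) _ (val (.b j i)) := by
  rw [da, thD_alg, thD₀, MvPolynomial.aeval_X]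
  rfl

/-- the symmetry on `V` -/
noncomputable def th : VV k I →+* FF k I :=
  MvPolynomial.eval₂Hom thD fun i => algebraMap (VV k I) _ (val (.t i))

lemma th_val (g : Gen I) :
    (th : VV k I →+* FF k I) (val g) = algebraMap (VV k I) _ (val g.swap) := by
  have hC : ∀ d : DD k I, (th : VV k I →+* FF k I) (MvPolynomial.C d) = thD d := fun d =>
    MvPolynomial.eval₂Hom_C _ _ d
  have hX : ∀ i : I, (th : VV k I →+* FF k I) (MvPolynomial.X i) =
      algebraMap (VV k I) _ (val (.t i)) := fun i => MvPolynomial.eval₂Hom_X' _ _ i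
  cases g with
  | s i => exact hX i
  | t i =>
    simp only [val, Gen.swap]
    rw [hC, thD_dt]
    rfl
  | a i j =>
    change (th : VV k I →+* FF k I) (MvPolynomial.C (da i j)) = _
    rw [hC, thD_da]
    rfl
  | b i j =>
    apply mul_right_cancel₀ (s_ne (k := k) j)
    have h1 : (th : VV k I →+* FF k I) (val (.t j)) = algebraMap (VV k I) _ (val (.s j)) := by
      change (th : VV k I →+* FF k I) (MvPolynomial.C (dt j)) = _
      rw [hC, thD_dt]
    have h2 : (th : VV k I →+* FF k I) (val (.a i j)) = algebraMap (VV k I) _ (val (.b j i)) := by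
      change (th : VV k I →+* FF k I) (MvPolynomial.C (da i j)) = _
      rw [hC, thD_da]
    have h3 : (th : VV k I →+* FF k I) (val (.s i)) = algebraMap (VV k I) _ (val (.t i)) := hX i
    have h4 := congrArg (th : VV k I →+* FF k I) (rel (k := k) i j)
    rw [map_add, map_mul, map_mul, map_one, h1, h2, h3] at h4
    have h5 := congrArg (algebraMap (VV k I) (FF k I)) (rel (k := k) j i)
    rw [map_add, map_mul, map_mul, map_one] at h5
    change _ = algebraMap (VV k I) (FF k I) (val (.a j i)) * _
    linear_combination h4 - h5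

lemma thD_k (c : k) : (thD : DD k I →+* FF k I) (algebraMap k _ c) = algebraMap k _ c := by
  rw [IsScalarTower.algebraMap_apply k (MvPolynomial (I ⊕ (I × I)) k) (DD k I), thD_alg]
  exact thD₀.commutes c

lemma th_Phi (p : MvPolynomial (Gen I) k) :
    (th : VV k I →+* FF k I) (Phi k I p) =
      algebraMap (VV k I) _ (Phi k I (MvPolynomial.rename Gen.swap p)) := by
  have h1 : (th : VV k I →+* FF k I).comp (Phi k I : MvPolynomial (Gen I) k →+* VV k I) =
      (algebraMap (VV k I) (FF k I)).comp ((Phi k I : MvPolynomial (Gen I) k →+* VV k I).comp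
        ((MvPolynomial.rename Gen.swap : MvPolynomial (Gen I) k →ₐ[k] MvPolynomial (Gen I) k) :
          MvPolynomial (Gen I) k →+* MvPolynomial (Gen I) k)) := by
    apply MvPolynomial.ringHom_ext
    · intro c
      change (th : VV k I →+* FF k I) (Phi k I (MvPolynomial.C c)) = algebraMap (VV k I) (FF k I)
        (Phi k I (MvPolynomial.rename Gen.swap (MvPolynomial.C c)))
      rw [MvPolynomial.rename_C]
      have h2 : Phi k I (MvPolynomial.C c) = MvPolynomial.C (algebraMap k (DD k I) c) := by
        rw [Phi, MvPolynomial.aeval_C]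
        rfl
      rw [h2]
      have h3 : (th : VV k I →+* FF k I) (MvPolynomial.C (algebraMap k (DD k I) c)) =
        thD (algebraMap k (DD k I) c) := MvPolynomial.eval₂Hom_C _ _ _
      rw [h3, thD_k]
      rw [IsScalarTower.algebraMap_apply k (VV k I) (FF k I)]
      rfl
    · intro g
      change (th : VV k I →+* FF k I) (Phi k I (MvPolynomial.X g)) = algebraMap (VV k I) (FF k I)
        (Phi k I (MvPolynomial.rename Gen.swap (MvPolynomial.X g)))
      rw [MvPolynomial.rename_X, Phi, MvPolynomial.aeval_X, MvPolynomial.aeval_X, th_val]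
  exact RingHom.congr_fun h1 p

variable (k I) in
/-- the block ring -/
abbrev RR : Type := MvPolynomial (Gen I) k ⧸ RingHom.ker (Phi k I)

/-- the generators -/
noncomputable def gen (g : Gen I) : RR k I := Ideal.Quotient.mk _ (MvPolynomial.X g)

variable (k I) in
/-- the embedding into `V` -/
noncomputable def emb : RR k I →ₐ[k] VV k I :=
  Ideal.Quotient.liftₐ _ (Phi k I) fun _ h => h

lemma emb_injective : Function.Injective (emb k I) := by
  rw [injective_iff_map_eq_zero]
  intro x hx
  obtain ⟨p, rfl⟩ := Ideal.Quotient.mk_surjective x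
  rw [Ideal.Quotient.eq_zero_iff_mem]
  exact hx

lemma emb_gen (g : Gen I) : emb k I (gen g) = val g := by
  change Phi k I (MvPolynomial.X g) = _
  rw [Phi, MvPolynomial.aeval_X]

variable (k I) in
/-- the symmetry of the block ring -/
noncomputable def sym : RR k I →ₐ[k] RR k I :=
  Ideal.Quotient.liftₐ _ ((Ideal.Quotient.mkₐ k _).comp (MvPolynomial.rename Gen.swap)) (by
    intro p hp
    have hp' : Phi k I p = 0 := hp
    have h1 := th_Phi p
    rw [hp', map_zero] at h1
    have h2 : Phi k I (MvPolynomial.rename Gen.swap p) = 0 :=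
      (map_eq_zero_iff _ (IsFractionRing.injective (VV k I) (FF k I))).1 h1.symm
    change Ideal.Quotient.mk _ (MvPolynomial.rename Gen.swap p) = 0
    rw [Ideal.Quotient.eq_zero_iff_mem]
    exact h2)

lemma sym_gen (g : Gen I) : sym k I (gen g) = gen g.swap := by
  change Ideal.Quotient.mk _ (MvPolynomial.rename Gen.swap (MvPolynomial.X g)) = _
  rw [MvPolynomial.rename_X]
  rfl

lemma sym_sym (x : RR k I) : sym k I (sym k I x) = x := by
  obtain ⟨p, rfl⟩ := Ideal.Quotient.mk_surjective x
  change Ideal.Quotient.mk _ (MvPolynomial.rename Gen.swap (MvPolynomial.rename Gen.swap p)) = _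
  rw [MvPolynomial.rename_rename]
  have h1 : (Gen.swap ∘ Gen.swap : Gen I → Gen I) = id := funext Gen.swap_swap
  rw [h1, MvPolynomial.rename_id_apply]

lemma coprime (i j : I) : IsCoprime (gen (k := k) (.s i)) (gen (.t j)) := by
  refine ⟨gen (.a i j), gen (.b i j), ?_⟩
  apply emb_injective
  rw [map_add, map_mul, map_mul, map_one, emb_gen, emb_gen, emb_gen, emb_gen, rel]

lemma free_of_same {A V : Type} [CommRing A] [AddCommGroup V] (m1 m2 : Module A V)
    (h : ∀ (a : A) (v : V), (haveI := m1; a • v) = (haveI := m2; a • v))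
    (h1 : @Module.Free A V _ _ m1) : @Module.Free A V _ _ m2 := by
  have h2 : m1 = m2 := Module.ext' _ _ h
  subst h2
  exact h1

section

attribute [local instance] MvPolynomial.algebraMvPolynomial

lemma free_mv (k D I : Type) [Field k] [CommRing D] [Algebra k D] :
    Module.Free (MvPolynomial I k) (MvPolynomial I D) :=
  Module.Free.of_equiv
    (Algebra.IsPushout.out (R := k) (S := MvPolynomial I k) (R' := D)
      (S' := MvPolynomial I D)).equiv

end

/-- the embedding statement, for any endomorphism `τ` with `emb (τ (gen (σ i))) = X i` -/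
lemma emb_of (τ : RR k I →ₐ[k] RR k I) (hτ : Function.Injective τ) (σ : I → RR k I)
    (h : ∀ i, τ (σ i) = gen (.s i)) : Emb k (RR k I) I σ := by
  let φ : RR k I →+* VV k I := ((emb k I).comp τ : RR k I →ₐ[k] VV k I)
  let _ : Module (RR k I) (VV k I) := Module.compHom (VV k I) φ
  have hsm : ∀ (r : RR k I) (v : VV k I), r • v = φ r * v := fun _ _ => rfl
  refine ⟨VV k I, inferInstance, inferInstance,
    { toFun := φ, map_add' := map_add φ, map_smul' := fun r x => ?_ }, ?_, ?_⟩
  · change φ (r * x) = φ r * φ x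
    exact map_mul φ r x
  · exact emb_injective.comp hτ
  · refine free_of_same (MvPolynomial.algebraMvPolynomial (σ := I) (R := k)
      (S := DD k I)).toModule _ ?_ (free_mv k (DD k I) I)
    intro p v
    have h1 : ((emb k I).comp τ).comp (MvPolynomial.aeval σ) =
        (MvPolynomial.mapAlgHom (Algebra.ofId k (DD k I)) : MvPolynomial I k →ₐ[k] VV k I) := by
      apply MvPolynomial.algHom_ext
      intro i
      change emb k I (τ (MvPolynomial.aeval σ (MvPolynomial.X i))) = _
      rw [MvPolynomial.aeval_X, h, emb_gen]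
      simp [val]
    have h2 : φ (MvPolynomial.aeval σ p) = MvPolynomial.map (algebraMap k (DD k I)) p :=
      AlgHom.congr_fun h1 p
    change MvPolynomial.map (algebraMap k (DD k I)) p * v = φ (MvPolynomial.aeval σ p) * v
    rw [h2]

end

theorem t_BLOCK : J_BLOCK := by
  intro k _ I
  refine ⟨RR k I, inferInstance, inferInstance, fun i => gen (.s i), fun i => gen (.t i), ?_,
    coprime, ?_, ?_⟩
  · exact RingHom.domain_nontrivial (emb k I : RR k I →+* VV k I)
  · exact emb_of (AlgHom.id k _) Function.injective_id _ fun i => rfl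
  · refine emb_of (sym k I) (fun x y hxy => ?_) _ fun i => sym_gen _
    rw [← sym_sym x, hxy, sym_sym]

end Pool.Agent.Q37.FS
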