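import Pool.Agent.Q37.FS.Step

/-!
# The cardinal induction (job CARD)
-/

namespace Pool.Agent.Q37.FS

open Pool.Agent.Q37.PC CategoryTheory CategoryTheory.Abelian TensorProduct

/-- transport of `Van` along a ring isomorphism -/
lemma Van.transport (hLIFT : J_LIFT) {B A : Type} [CommRing B] [CommRing A] (e : B ≃+* A)
    {I : Type} {b : I → B} {n : ℕ} (h : Van B b n) : Van A (fun i => e (b i)) n := by
  intro Z F _ _ _ _ _ hZ j hj
  let _ : Algebra B A := (e : B →+* A).toAlgebra
  let _ : Module B F := Module.compHom F (algebraMap B A)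
  have : IsScalarTower B A F := IsScalarTower.of_algebraMap_smul fun _ _ => rfl
  have : Module.Free B A := Module.Free.of_equiv
    ({ e with map_smul' := fun b x => by simp [Algebra.smul_def, RingHom.algebraMap_toAlgebra] } :
      B ≃ₗ[B] A)
  have : Module.Free B F := Module.Free.trans (S := A) (M := F)
  exact hLIFT B I b n h A Z F hZ j hj

lemma Van.res {B : Type} [CommRing B] {I I' : Type} {b : I → B} {n : ℕ} (f : I' → I)
    (h : Van B (fun i => b (f i)) n) : Van B b n := by
  intro Z F _ _ _ _ _ hZ j hj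
  exact h Z F (hZ.res f) j hj

theorem t_CARD (hLIFT : J_LIFT) (hSTEP : J_STEP) : J_CARD := by
  classical
  intro k _ _ n
  induction n with
  | zero =>
    intro J _ Z F _ _ _ _ _ _ j hj
    omega
  | succ n ih =>
    intro J hJ
    have hlt : Cardinal.aleph n < Cardinal.mk J := by
      refine lt_of_lt_of_le ?_ hJ
      rw [Cardinal.aleph_lt_aleph]
      exact_mod_cast Nat.lt_succ_self n
    obtain ⟨S, hS⟩ := Cardinal.le_mk_iff_exists_set.1 hlt.le
    have hJinf : Infinite J := by
      rw [Cardinal.infinite_iff]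
      exact (Cardinal.aleph0_le_aleph _).trans hlt.le
    have hc : Cardinal.aleph n < Cardinal.mk ↥Sᶜ := by
      rw [Cardinal.mk_compl_of_infinite S (by rw [hS]; exact hlt)]
      exact hlt
    have hB : Cardinal.mk (MvPolynomial S k) ≤ Cardinal.aleph n := by
      refine MvPolynomial.cardinalMk_le_max.trans ?_
      refine max_le (max_le ?_ hS.le) (Cardinal.aleph0_le_aleph _)
      exact (Cardinal.mk_le_aleph0).trans (Cardinal.aleph0_le_aleph _)
    have h1 := hSTEP (MvPolynomial S k) ↥Sᶜ (Cardinal.aleph n) (Cardinal.aleph0_le_aleph _) hB hc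
      S (fun j => MvPolynomial.X j) n (ih S hS.ge)
    let e : MvPolynomial ↥Sᶜ (MvPolynomial S k) ≃+* MvPolynomial J k :=
      ((MvPolynomial.sumAlgEquiv k ↥Sᶜ S).symm.trans
        (MvPolynomial.renameEquiv k ((Equiv.sumComm _ _).trans (Equiv.Set.sumCompl S)))).toRingEquiv
    have h2 := Van.transport hLIFT e h1
    refine Van.res (I' := ↥Sᶜ ⊕ S) (Sum.elim Subtype.val Subtype.val) ?_
    convert h2 using 1
    funext i
    rcases i with i | i
    · simp [e]
    · simp [e]

end Pool.Agent.Q37.FS
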