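import Pool.Agent.Q37.FS.Stm

/-!
# The faithfully flat algebra (job COVER)
-/

namespace Pool.Agent.Q37.FS

open Pool.Agent.Q37.PC CategoryTheory TensorProduct

section

variable {k I R₀ R : Type} [Field k] [CommRing R₀] [Algebra k R₀] [CommRing R] [Algebra k R]
  (s t : I → R₀) (β : ℕ → (R₀ →ₐ[k] R))

variable (k) in
/-- functions on the Cantor set -/
abbrev EE : Type := (ℕ → Bool) → k

variable (k) in
/-- the coordinate idempotents -/
def ed (d : ℕ) : EE k := fun ε => if ε d then 1 else 0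

lemma ed_mul (d : ℕ) : ed k d * ed k d = ed k d := by
  funext ε
  simp [ed]

/-- the elements to be inverted -/
noncomputable def gg (x : ℕ × I) : R ⊗[k] EE k :=
  (β x.1 (s x.2)) ⊗ₜ ed k x.1 + (β x.1 (t x.2)) ⊗ₜ (1 - ed k x.1)

/-- the multiplicative set -/
noncomputable abbrev Sub : Submonoid (R ⊗[k] EE k) := Submonoid.closure (Set.range (gg s t β))

/-- the algebra -/
abbrev SS : Type := Localization (Sub s t β)

lemma ed_mul_gg (d : ℕ) (i : I) :
    ((1 : R) ⊗ₜ[k] ed k d) * gg s t β (d, i) = (β d (s i) ⊗ₜ[k] 1) * ((1 : R) ⊗ₜ[k] ed k d) := by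
  have h0 : ed k d * (1 - ed k d) = 0 := by rw [mul_sub, mul_one, ed_mul, sub_self]
  simp only [gg, mul_add, Algebra.TensorProduct.tmul_mul_tmul, one_mul, mul_one, ed_mul, h0,
    TensorProduct.tmul_zero, add_zero]

lemma ed_mul_gg' (d : ℕ) (i : I) :
    ((1 : R) ⊗ₜ[k] (1 - ed k d)) * gg s t β (d, i) =
      (β d (t i) ⊗ₜ[k] 1) * ((1 : R) ⊗ₜ[k] (1 - ed k d)) := by
  have h0 : (1 - ed k d) * ed k d = 0 := by rw [sub_mul, one_mul, ed_mul, sub_self]
  have h1 : (1 - ed k d) * (1 - ed k d) = 1 - ed k d := by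
    rw [mul_sub, h0, mul_one, sub_zero]
  simp only [gg, mul_add, Algebra.TensorProduct.tmul_mul_tmul, one_mul, mul_one, h1, h0,
    TensorProduct.tmul_zero, zero_add]

lemma splits (d : ℕ) : Splits s t (β d : R₀ →+* R) (SS s t β) := by
  let ρ : R ⊗[k] EE k →+* SS s t β := algebraMap _ _
  have hρ : ∀ r : R, ρ (r ⊗ₜ 1) = algebraMap R (SS s t β) r := by
    intro r
    rw [IsScalarTower.algebraMap_apply R (R ⊗[k] EE k) (SS s t β)]
    rfl
  have hunit : ∀ i, IsUnit (ρ (gg s t β (d, i))) := fun i =>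
    IsLocalization.map_units (SS s t β)
      (⟨gg s t β (d, i), Submonoid.subset_closure ⟨(d, i), rfl⟩⟩ : Sub s t β)
  refine ⟨ρ (1 ⊗ₜ ed k d), ?_, fun i => ?_, fun i => ?_⟩
  · rw [← map_mul, Algebra.TensorProduct.tmul_mul_tmul, ed_mul, one_mul]
  · obtain ⟨u, hu⟩ := (hunit i).exists_right_inv
    refine ⟨ρ (1 ⊗ₜ ed k d) * u, ?_⟩
    have h1 := congrArg ρ (ed_mul_gg s t β d i)
    rw [map_mul, map_mul, hρ] at h1
    change algebraMap R (SS s t β) (β d (s i)) * _ = _
    rw [← mul_assoc, ← h1, mul_assoc, hu, mul_one]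
  · obtain ⟨u, hu⟩ := (hunit i).exists_right_inv
    refine ⟨ρ (1 ⊗ₜ (1 - ed k d)) * u, ?_⟩
    have h1 := congrArg ρ (ed_mul_gg' s t β d i)
    rw [map_mul, map_mul, hρ] at h1
    change algebraMap R (SS s t β) (β d (t i)) * _ = _
    rw [← mul_assoc, ← h1, mul_assoc, hu, mul_one, TensorProduct.tmul_sub, map_sub,
      show ((1 : R) ⊗ₜ[k] (1 : EE k)) = 1 from rfl, map_one]

lemma exists_point (hst : ∀ i j, IsCoprime (s i) (t j)) (m : Ideal R) (hm : m.IsMaximal) :
    ∃ ψ : SS s t β →+* R ⧸ m, ∀ r, ψ (algebraMap R (SS s t β) r) = Ideal.Quotient.mk m r := by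
  classical
  have : IsDomain (R ⧸ m) := (Ideal.Quotient.isDomain_iff_prime m).2 hm.isPrime
  let ε : ℕ → Bool := fun d => decide (∀ i, β d (s i) ∉ m)
  let ψ₀ : R ⊗[k] EE k →ₐ[k] R ⧸ m := Algebra.TensorProduct.lift (Ideal.Quotient.mkₐ k m)
    ((Algebra.ofId k (R ⧸ m)).comp (Pi.evalAlgHom k (fun _ => k) ε)) (fun _ _ => Commute.all _ _)
  have hψ₀ : ∀ (r : R) (h : EE k), ψ₀ (r ⊗ₜ h) = Ideal.Quotient.mk m r *
      algebraMap k (R ⧸ m) (h ε) := by
    intro r h
    rw [Algebra.TensorProduct.lift_tmul]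
    rfl
  let _ := Ideal.Quotient.field m
  have hu : ∀ y : Sub s t β, IsUnit (ψ₀ (y : R ⊗[k] EE k)) := by
    rintro ⟨y, hy⟩
    change IsUnit (ψ₀ y)
    induction hy using Submonoid.closure_induction with
    | mem y hy =>
      obtain ⟨⟨d, i⟩, rfl⟩ := hy
      rw [isUnit_iff_ne_zero]
      simp only [gg, map_add, hψ₀, ed, Pi.sub_apply, Pi.one_apply]
      by_cases h : ∀ i, β d (s i) ∉ m
      · have h1 : ε d = true := by simpa [ε] using h
        rw [h1]
        simp only [if_true, map_one, mul_one, sub_self, map_zero, mul_zero, add_zero]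
        rw [Ne, Ideal.Quotient.eq_zero_iff_mem]
        exact h i
      · have h1 : ε d = false := by simpa [ε] using h
        rw [h1]
        simp only [Bool.false_eq_true, if_false, map_zero, mul_zero, sub_zero, map_one, mul_one,
          zero_add]
        rw [Ne, Ideal.Quotient.eq_zero_iff_mem]
        push Not at h
        obtain ⟨i₀, hi₀⟩ := h
        intro h2
        obtain ⟨a, b, hab⟩ := hst i₀ i
        apply hm.ne_top
        rw [Ideal.eq_top_iff_one]
        have h3 := congrArg (β d) hab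
        rw [map_add, map_mul, map_mul, map_one] at h3
        rw [← h3]
        exact m.add_mem (m.mul_mem_left _ hi₀) (m.mul_mem_left _ h2)
    | one => rw [map_one]; exact isUnit_one
    | mul x y _ _ hx hy => rw [map_mul]; exact hx.mul hy
  let ψ : SS s t β →+* R ⧸ m :=
    IsLocalization.lift (M := Sub s t β) (S := SS s t β) (g := (ψ₀ : R ⊗[k] EE k →+* R ⧸ m)) hu
  refine ⟨ψ, fun r => ?_⟩
  rw [IsScalarTower.algebraMap_apply R (R ⊗[k] EE k) (SS s t β)]
  have h6 : ψ (algebraMap (R ⊗[k] EE k) (SS s t β) (algebraMap R (R ⊗[k] EE k) r)) =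
      ψ₀ (r ⊗ₜ 1) := IsLocalization.lift_eq hu _
  rw [h6, hψ₀, Pi.one_apply, map_one, mul_one]

end

theorem t_COVER : J_COVER := by
  intro k I R₀ R _ _ _ _ _ s t β hst
  refine ⟨SS s t β, inferInstance, inferInstance, ?_, splits s t β⟩
  have h1 : Module.Flat (R ⊗[k] EE k) (SS s t β) :=
    IsLocalization.flat (SS s t β) (Sub s t β)
  have h2 : Module.Flat R (SS s t β) := Module.Flat.trans R (R ⊗[k] EE k) (SS s t β)
  constructor
  intro m hm htop
  obtain ⟨ψ, hψ⟩ := exists_point s t β hst m hm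
  have h3 : (1 : SS s t β) ∈ m • (⊤ : Submodule R (SS s t β)) := by
    rw [htop]
    trivial
  have h4 : ∀ x ∈ m • (⊤ : Submodule R (SS s t β)), ψ x = 0 := by
    intro x hx
    induction hx using Submodule.smul_induction_on' with
    | smul r hr y _ =>
      rw [Algebra.smul_def, map_mul, hψ, Ideal.Quotient.eq_zero_iff_mem.2 hr, zero_mul]
    | add x _ y _ hx hy => rw [map_add, hx, hy, add_zero]
  have h5 := h4 1 h3
  rw [map_one, ← map_one (Ideal.Quotient.mk m), Ideal.Quotient.eq_zero_iff_mem] at h5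
  exact hm.ne_top ((Ideal.eq_top_iff_one m).2 h5)

end Pool.Agent.Q37.FS
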