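import Pool.Agent.Q37.FS.Stm

/-!
# Dimension shifting (job RES) and basic facts about `Inv`
-/

namespace Pool.Agent.Q37.FS

open Pool.Agent.Q37.PC CategoryTheory CategoryTheory.Abelian TensorProduct

section

variable {R : Type} [CommRing R] {I : Type} {s : I → R}
variable {X Y Z : Type} [AddCommGroup X] [Module R X] [AddCommGroup Y] [Module R Y]
  [AddCommGroup Z] [Module R Z]

lemma ev0_iff : EV R 0 X Y ↔ ∀ φ : X →ₗ[R] Y, φ = 0 := by
  constructor
  · intro h φ
    have h1 := h.zero (Ext.mk₀ (ModuleCat.ofHom φ))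
    rw [← Ext.mk₀_zero] at h1
    exact congrArg ModuleCat.Hom.hom ((Ext.mk₀_bijective _ _).1 h1)
  · intro h
    refine EV.mk fun x => ?_
    obtain ⟨φ, rfl⟩ := (Ext.mk₀_bijective _ _).2 x
    have h1 : φ = 0 := by
      ext1
      exact h φ.hom
    rw [h1, Ext.mk₀_zero]

lemma Inv.congr (h : Inv s X) (e : X ≃ₗ[R] Z) : Inv s Z := by
  intro i
  have h1 : (fun z : Z => s i • z) = e ∘ (fun x : X => s i • x) ∘ e.symm := by
    funext z
    simp
  rw [h1]
  exact e.bijective.comp ((h i).comp e.symm.bijective)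

lemma Inv.ker (hX : Inv s X) (hZ : Inv s Z) (π : X →ₗ[R] Z) : Inv s (LinearMap.ker π) := by
  intro i
  constructor
  · intro a b hab
    apply Subtype.ext
    exact (hX i).1 (congrArg Subtype.val hab)
  · rintro ⟨k, hk⟩
    obtain ⟨a, ha⟩ := (hX i).2 k
    have ha' : s i • a = k := ha
    refine ⟨⟨a, ?_⟩, Subtype.ext ha⟩
    rw [LinearMap.mem_ker]
    apply (hZ i).1
    change s i • π a = s i • (0 : Z)
    rw [← map_smul, ha', smul_zero]
    exact hk

lemma Inv.quot (hX : Inv s X) (K : Submodule R X) (hK : Inv s K) : Inv s (X ⧸ K) := by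
  intro i
  constructor
  · intro a b hab
    obtain ⟨a, rfl⟩ := K.mkQ_surjective a
    obtain ⟨b, rfl⟩ := K.mkQ_surjective b
    have h1 : K.mkQ (s i • (a - b)) = 0 := by
      rw [smul_sub, map_sub, map_smul, map_smul]
      exact sub_eq_zero.2 hab
    rw [Submodule.mkQ_apply, Submodule.Quotient.mk_eq_zero] at h1
    obtain ⟨⟨c, hc⟩, hc'⟩ := (hK i).2 ⟨_, h1⟩
    have hc2 : s i • c = s i • (a - b) := congrArg Subtype.val hc'
    have hc3 : c = a - b := (hX i).1 hc2
    rw [← sub_eq_zero, ← map_sub, Submodule.mkQ_apply, Submodule.Quotient.mk_eq_zero, ← hc3]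
    exact hc
  · intro a
    obtain ⟨a, rfl⟩ := K.mkQ_surjective a
    obtain ⟨b, hb⟩ := (hX i).2 a
    refine ⟨K.mkQ b, ?_⟩
    have hb' : s i • b = a := hb
    change s i • K.mkQ b = _
    rw [← map_smul, hb']

lemma Inv.directSum {ι : Type} {M : ι → Type} [∀ i, AddCommGroup (M i)] [∀ i, Module R (M i)]
    (h : ∀ i, Inv s (M i)) : Inv s (DirectSum ι M) := by
  classical
  intro i
  constructor
  · intro a b hab
    refine DFinsupp.ext fun j => ?_
    apply (h j i).1
    exact DFunLike.congr_fun (hab : s i • a = s i • b) j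
  · intro x
    induction x using DirectSum.induction_on with
    | zero => exact ⟨0, smul_zero _⟩
    | of j y =>
      obtain ⟨z, hz⟩ := (h j i).2 y
      refine ⟨DirectSum.lof R ι M j z, ?_⟩
      have hz' : s i • z = y := hz
      change s i • DirectSum.lof R ι M j z = _
      rw [← map_smul, hz']
      rfl
    | add a b ha hb =>
      obtain ⟨a', ha'⟩ := ha
      obtain ⟨b', hb'⟩ := hb
      refine ⟨a' + b', ?_⟩
      have ha2 : s i • a' = a := ha'
      have hb2 : s i • b' = b := hb'
      change s i • (a' + b') = _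
      rw [smul_add, ha2, hb2]

end

theorem t_RES (hSUM : J_SUM) : J_RES := by
  intro R _ I s N _ _ hN huni Y _ _ n hY
  classical
  have key : ∀ j, ∀ (Z : Type) [AddCommGroup Z] [Module R Z], Inv s Z → j < n → EV R j Z Y := by
    intro j
    induction j with
    | zero =>
      intro Z _ _ hZ hn
      rw [ev0_iff]
      intro φ
      ext z
      obtain ⟨f, x, hx⟩ := huni Z hZ z
      have h1 := ev0_iff.1 (hY 0 hn) (φ ∘ₗ f)
      rw [← hx]
      exact LinearMap.congr_fun h1 x
    | succ j ih =>
      intro Z _ _ hZ hn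
      choose f hf using huni Z hZ
      let π : DirectSum Z (fun _ => N) →ₗ[R] Z := DirectSum.toModule R Z Z f
      have hπ : Function.Surjective π := by
        intro z
        obtain ⟨x, hx⟩ := hf z
        refine ⟨DirectSum.lof R Z (fun _ => N) z x, ?_⟩
        simp only [π, DirectSum.toModule_lof]
        exact hx
      have hD : Inv s (DirectSum Z (fun _ : Z => N)) := Inv.directSum fun _ => hN
      have hK : Inv s (LinearMap.ker π) := hD.ker hZ π
      exact EV.con3 (f := (LinearMap.ker π).subtype) (g := π)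
        (LinearMap.exact_subtype_ker_map π) (Submodule.injective_subtype _) hπ
        (ih _ hK (by omega)) (hSUM R Z (fun _ => N) Y (j + 1) fun _ => hY _ hn)
  intro Z _ _ hZ j hj
  exact key j Z hZ hj

end Pool.Agent.Q37.FS
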