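import Pool.Agent.Q37.FS.Stm
import Pool.Agent.Q37.FS.Res

/-!
# Passage to derived categories (job DER)
-/

namespace Pool.Agent.Q37.FS

open Pool.Agent.Q37.PC CategoryTheory CategoryTheory.Abelian Limits

universe w w' v v' u u'

section adj

variable {C₁ : Type u} [Category.{v} C₁] [Preadditive C₁]
  {C₂ : Type u'} [Category.{v'} C₂] [Preadditive C₂]
  {F : C₁ ⥤ C₂} {G : C₂ ⥤ C₁} [F.Additive] [G.Additive]

/-- the adjunction on complexes induced by an adjunction -/
noncomputable def adjC (adj : F ⊣ G) {ι : Type} (c : ComplexShape ι) :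
    F.mapHomologicalComplex c ⊣ G.mapHomologicalComplex c :=
  Adjunction.mkOfUnitCounit
    { unit :=
        { app := fun K => { f := fun i => adj.unit.app (K.X i)
                            comm' := fun i j _ => (adj.unit.naturality (K.d i j)).symm }
          naturality := fun K L φ => by
            ext i
            exact adj.unit.naturality (φ.f i) }
      counit :=
        { app := fun K => { f := fun i => adj.counit.app (K.X i)
                            comm' := fun i j _ => (adj.counit.naturality (K.d i j)).symm }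
          naturality := fun K L φ => by
            ext i
            exact adj.counit.naturality (φ.f i) }
      left_triangle := by
        ext K i
        simp only [NatTrans.comp_app, Functor.whiskerRight_app, Functor.whiskerLeft_app,
          Functor.associator_hom_app, HomologicalComplex.comp_f,
          Functor.mapHomologicalComplex_map_f]
        erw [Category.id_comp]
        exact adj.left_triangle_components (K.X i)
      right_triangle := by
        ext K i
        simp only [NatTrans.comp_app, Functor.whiskerRight_app, Functor.whiskerLeft_app,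
          Functor.associator_inv_app, HomologicalComplex.comp_f,
          Functor.mapHomologicalComplex_map_f]
        erw [Category.id_comp]
        exact adj.right_triangle_components (K.X i) }

end adj

section der

variable {C₁ : Type u} [Category.{v} C₁] [Abelian C₁] [HasDerivedCategory.{w} C₁]
  {C₂ : Type u'} [Category.{v'} C₂] [Abelian C₂] [HasDerivedCategory.{w'} C₂]
  {F : C₁ ⥤ C₂} {G : C₂ ⥤ C₁} [F.Additive] [G.Additive]
  [PreservesFiniteLimits F] [PreservesFiniteColimits F]

/-- the adjunction on derived categories induced by an adjunction between exact functors -/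
noncomputable def adjD (adj : F ⊣ G) [PreservesFiniteLimits G] [PreservesFiniteColimits G] :
    F.mapDerivedCategory ⊣ G.mapDerivedCategory :=
  letI : CatCommSq (F.mapHomologicalComplex (ComplexShape.up ℤ)) DerivedCategory.Q
    DerivedCategory.Q F.mapDerivedCategory := ⟨F.mapDerivedCategoryFactors.symm⟩
  letI : CatCommSq (G.mapHomologicalComplex (ComplexShape.up ℤ)) DerivedCategory.Q
    DerivedCategory.Q G.mapDerivedCategory := ⟨G.mapDerivedCategoryFactors.symm⟩
  (adjC adj (ComplexShape.up ℤ)).localization DerivedCategory.Q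
    (HomologicalComplex.quasiIso C₁ (ComplexShape.up ℤ)) DerivedCategory.Q
    (HomologicalComplex.quasiIso C₂ (ComplexShape.up ℤ)) F.mapDerivedCategory G.mapDerivedCategory

lemma reflects_Q [F.ReflectsIsomorphisms] {K L : CochainComplex C₁ ℤ} (φ : K ⟶ L)
    (h : IsIso (F.mapDerivedCategory.map (DerivedCategory.Q.map φ))) :
    IsIso (DerivedCategory.Q.map φ) := by
  have h1 : IsIso (DerivedCategory.Q.map ((F.mapHomologicalComplex (ComplexShape.up ℤ)).map φ)) :=
    (NatIso.isIso_map_iff F.mapDerivedCategoryFactors φ).1 h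
  rw [DerivedCategory.isIso_Q_map_iff_quasiIso] at h1 ⊢
  exact (HomologicalComplex.quasiIso_map_iff_of_preservesHomology φ F).1 h1

lemma reflects [F.ReflectsIsomorphisms] : F.mapDerivedCategory.ReflectsIsomorphisms := by
  refine ⟨fun {X Y} g hg => ?_⟩
  let K := DerivedCategory.Q.objPreimage X
  let L := DerivedCategory.Q.objPreimage Y
  let eX : DerivedCategory.Q.obj K ≅ X := DerivedCategory.Q.objObjPreimageIso X
  let eY : DerivedCategory.Q.obj L ≅ Y := DerivedCategory.Q.objObjPreimageIso Y
  obtain ⟨X', s, hs, t, hf⟩ := DerivedCategory.right_fac (eX.hom ≫ g ≫ eY.inv)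
  have h1 : DerivedCategory.Q.map t = DerivedCategory.Q.map s ≫ eX.hom ≫ g ≫ eY.inv := by
    rw [hf, IsIso.hom_inv_id_assoc]
  have h2 : IsIso (F.mapDerivedCategory.map (DerivedCategory.Q.map t)) := by
    rw [h1]
    simp only [Functor.map_comp]
    infer_instance
  have h3 := reflects_Q t h2
  have h4 : g = eX.inv ≫ (inv (DerivedCategory.Q.map s) ≫ DerivedCategory.Q.map t) ≫ eY.hom := by
    rw [← hf]
    simp
  rw [h4]
  infer_instance

omit [HasDerivedCategory.{w} C₁] [HasDerivedCategory.{w'} C₂] [PreservesFiniteLimits F]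
  [PreservesFiniteColimits F] in
/-- the homotopy vanishing for maps from `F K` to `E`, if `G E` is contractible -/
lemma hom_null (adj : F ⊣ G) (E : CochainComplex C₂ ℤ)
    (hE : Homotopy (𝟙 ((G.mapHomologicalComplex (ComplexShape.up ℤ)).obj E)) 0)
    (K : CochainComplex C₁ ℤ) (φ : (F.mapHomologicalComplex (ComplexShape.up ℤ)).obj K ⟶ E) :
    Nonempty (Homotopy φ 0) := by
  let ad := adjC adj (ComplexShape.up ℤ)
  let ψ := ad.homEquiv K E φ
  have h1 : Homotopy ψ 0 := by
    have h2 := hE.compLeft ψ
    rw [Category.comp_id, Limits.comp_zero] at h2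
    exact h2
  have h3 := (F.mapHomotopy h1).compRight (ad.counit.app E)
  have h4 : (F.mapHomologicalComplex (ComplexShape.up ℤ)).map ψ ≫ ad.counit.app E = φ :=
    (ad.homEquiv_counit (X := K) (Y := E) (g := ψ)).symm.trans
      ((ad.homEquiv K E).symm_apply_apply φ)
  rw [h4, Functor.map_zero, Limits.zero_comp] at h3
  exact ⟨h3⟩

lemma hom_zero (adj : F ⊣ G) (E : CochainComplex C₂ ℤ) [E.IsKInjective]
    (hE : Homotopy (𝟙 ((G.mapHomologicalComplex (ComplexShape.up ℤ)).obj E)) 0)
    (Y : DerivedCategory C₁) (g : F.mapDerivedCategory.obj Y ⟶ DerivedCategory.Q.obj E) :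
    g = 0 := by
  let K := DerivedCategory.Q.objPreimage Y
  let eY : DerivedCategory.Q.obj K ≅ Y := DerivedCategory.Q.objObjPreimageIso Y
  let A := (F.mapHomologicalComplex (ComplexShape.up ℤ)).obj K
  let e : F.mapDerivedCategory.obj Y ≅ DerivedCategory.Q.obj A :=
    (F.mapDerivedCategory.mapIso eY).symm ≪≫ F.mapDerivedCategoryFactors.app K
  suffices h : ∀ g' : DerivedCategory.Q.obj A ⟶ DerivedCategory.Q.obj E, g' = 0 by
    have h1 := h (e.inv ≫ g)
    rw [← cancel_epi e.inv, h1, Limits.comp_zero]
  intro g'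
  let q := DerivedCategory.quotientCompQhIso C₂
  obtain ⟨ψ, hψ⟩ := (CochainComplex.IsKInjective.Qh_map_bijective
    ((HomotopyCategory.quotient C₂ (ComplexShape.up ℤ)).obj A) E).2
      (q.hom.app A ≫ g' ≫ q.inv.app E)
  obtain ⟨φ, rfl⟩ := (HomotopyCategory.quotient C₂ (ComplexShape.up ℤ)).map_surjective ψ
  obtain ⟨h⟩ := hom_null adj E hE K φ
  rw [HomotopyCategory.eq_of_homotopy φ 0 h, Functor.map_zero, Functor.map_zero] at hψ
  have h5 : g' = q.inv.app A ≫ (q.hom.app A ≫ g' ≫ q.inv.app E) ≫ q.hom.app E := by simp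
  rw [h5, ← hψ]
  simp

end der

section mod

variable {R S : Type} [CommRing R] [CommRing S] (f : R →+* S)

instance : (ModuleCat.coextendScalars.{0, 0, 0} f).Additive :=
  (ModuleCat.restrictCoextendScalarsAdj.{0, 0, 0} f).right_adjoint_additive

/-- coextension of scalars on complexes -/
noncomputable abbrev coE (E : CochainComplex (ModuleCat.{0} R) ℤ) :
    CochainComplex (ModuleCat.{0} S) ℤ :=
  ((ModuleCat.coextendScalars.{0, 0, 0} f).mapHomologicalComplex (ComplexShape.up ℤ)).obj E

lemma coE_inj (E : CochainComplex (ModuleCat.{0} R) ℤ) [∀ n, Injective (E.X n)] (n : ℤ) :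
    Injective ((coE f E).X n) :=
  Injective.injective_of_adjoint (ModuleCat.restrictCoextendScalarsAdj.{0, 0, 0} f) (E.X n)

lemma coE_ge (E : CochainComplex (ModuleCat.{0} R) ℤ) [E.IsStrictlyGE 0] :
    (coE f E).IsStrictlyGE 0 := by
  rw [CochainComplex.isStrictlyGE_iff]
  intro i hi
  exact (ModuleCat.coextendScalars.{0, 0, 0} f).map_isZero (E.isZero_of_isStrictlyGE 0 i hi)

/-- the module `S` over `R` -/
noncomputable abbrev rS : ModuleCat.{0} R := (ModuleCat.restrictScalars.{0} f).obj
  (ModuleCat.of S S)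

lemma ev_rS (h : (letI := f.toAlgebra; ∀ j, EV R j S R)) (j : ℕ) :
    Subsingleton (Ext (rS f) (ModuleCat.of R R) j) := h j

lemma hom_lift (h : ∀ j, Subsingleton (Ext (rS f) (ModuleCat.of R R) j))
    (I : InjectiveResolution (ModuleCat.of R R)) (k : ℕ) (φ : rS f ⟶ I.cochainComplex.X k)
    (hφ : φ ≫ I.cochainComplex.d k ((k : ℤ) + 1) = 0) :
    ∃ ψ : rS f ⟶ I.cochainComplex.X ((k : ℤ) - 1), ψ ≫ I.cochainComplex.d ((k : ℤ) - 1) k = φ := by
  let φ' := φ ≫ (I.cochainComplexXIso k k rfl).hom
  have hφ' : φ' ≫ I.cocomplex.d k (k + 1) = 0 := by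
    have h1 := I.cochainComplex_d k ((k : ℤ) + 1) k (k + 1) rfl (by simp)
    rw [h1] at hφ
    rw [← cancel_mono (I.cochainComplexXIso ((k : ℤ) + 1) (k + 1) (by simp)).inv]
    simpa [φ'] using hφ
  have h2 : φ = φ' ≫ (I.cochainComplexXIso k k rfl).inv := by simp [φ']
  cases k with
  | zero =>
    refine ⟨0, ?_⟩
    have h3 : φ' = 0 := by
      have h4 := I.exact₀.lift_f φ' hφ'
      have h5 : I.exact₀.lift φ' hφ' = 0 := by
        have h6 := (h 0).elim (Ext.mk₀ (I.exact₀.lift φ' hφ')) 0
        rw [← Ext.mk₀_zero] at h6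
        exact (Ext.mk₀_bijective _ _).1 h6
      rw [← h4, h5, Limits.zero_comp]
    rw [h2, h3]
    simp
  | succ m =>
    have h3 : I.extMk φ' (m + 2) rfl hφ' = 0 := (h (m + 1)).elim _ _
    obtain ⟨g, hg⟩ := (I.extMk_eq_zero_iff φ' (m + 2) rfl hφ' m rfl).1 h3
    have h4 : ((m + 1 : ℕ) : ℤ) - 1 = m := by push_cast; ring
    have h5 := I.cochainComplex_d (((m + 1 : ℕ) : ℤ) - 1) ((m + 1 : ℕ) : ℤ) m (m + 1) h4.symm rfl
    refine ⟨g ≫ (I.cochainComplexXIso _ m h4.symm).inv, ?_⟩
    rw [h5, h2, ← hg]
    simp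

lemma coE_acyclic (h : ∀ j, Subsingleton (Ext (rS f) (ModuleCat.of R R) j))
    (I : InjectiveResolution (ModuleCat.of R R)) : (coE f I.cochainComplex).Acyclic := by
  intro n
  rcases lt_or_ge n 0 with hn | hn
  · have := coE_ge f I.cochainComplex
    exact (HomologicalComplex.ExactAt.of_isZero ((coE f I.cochainComplex).isZero_of_isStrictlyGE 0 n hn))
  · obtain ⟨k, rfl⟩ := Int.eq_ofNat_of_zero_le hn
    rw [HomologicalComplex.exactAt_iff' _ ((k : ℤ) - 1) k ((k : ℤ) + 1) (by simp) (by simp),
      ShortComplex.moduleCat_exact_iff]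
    intro x hx
    let φ : rS f ⟶ I.cochainComplex.X k :=
      ModuleCat.ofHom (X := rS f) (ModuleCat.CoextendScalars.equiv f (I.cochainComplex.X k) x)
    have hφ : φ ≫ I.cochainComplex.d k ((k : ℤ) + 1) = 0 := by
      ext s
      have := congrArg (fun y => ModuleCat.CoextendScalars.equiv f _ y s) hx
      exact this
    obtain ⟨ψ, hψ⟩ := hom_lift f h I k φ hφ
    refine ⟨(ModuleCat.CoextendScalars.equiv f _).symm ψ.hom, ?_⟩
    apply ModuleCat.CoextendScalars.ext
    ext s
    have := congrArg (fun y => y.hom s) hψ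
    exact this

theorem coE_null (h : ∀ j, Subsingleton (Ext (rS f) (ModuleCat.of R R) j))
    (I : InjectiveResolution (ModuleCat.of R R)) :
    Nonempty (Homotopy (𝟙 (coE f I.cochainComplex)) 0) := by
  have := coE_ge f I.cochainComplex
  have := coE_inj f I.cochainComplex
  have : (coE f I.cochainComplex).IsKInjective := CochainComplex.isKInjective_of_injective _ 0
  exact CochainComplex.IsKInjective.nonempty_homotopy_zero _ (coE_acyclic f h I)

end mod

section fin

variable {R S : Type} [CommRing R] [CommRing S]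
  [HasDerivedCategory.{w} (ModuleCat.{0} R)] [HasDerivedCategory.{w'} (ModuleCat.{0} S)]

/-- `f^* : D(R) ⥤ D(S)` for a flat ring homomorphism `f`: the functor induced by the exact
functor `S ⊗_R -` -/
noncomputable def upStar (f : R →+* S) (hf : f.Flat) :
    DerivedCategory (ModuleCat.{0} R) ⥤ DerivedCategory (ModuleCat.{0} S) :=
  haveI := ModuleCat.preservesFiniteLimits_extendScalars_of_flat.{0} hf
  (ModuleCat.extendScalars.{0, 0, 0} f).mapDerivedCategory

/-- `f_* : D(S) ⥤ D(R)`: the functor induced by restriction of scalars -/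
noncomputable def lowStar (f : R →+* S) :
    DerivedCategory (ModuleCat.{0} S) ⥤ DerivedCategory (ModuleCat.{0} R) :=
  (ModuleCat.restrictScalars.{0} f).mapDerivedCategory

variable (R) in
/-- the unit object `R[0]` of `D(R)` -/
noncomputable def unitObj : DerivedCategory (ModuleCat.{0} R) :=
  (DerivedCategory.singleFunctor (ModuleCat.{0} R) 0).obj (ModuleCat.of R R)

/-- `f^*` is left adjoint to `f_*` -/
noncomputable def starAdj (f : R →+* S) (hf : f.Flat) : upStar f hf ⊣ lowStar f :=
  haveI := ModuleCat.preservesFiniteLimits_extendScalars_of_flat.{0} hf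
  adjD (ModuleCat.extendRestrictScalarsAdj.{0, 0, 0} f)

theorem upStar_reflects (f : R →+* S) (hf : f.FaithfullyFlat) :
    (upStar f hf.flat).ReflectsIsomorphisms := by
  have := ModuleCat.preservesFiniteLimits_extendScalars_of_flat.{0} hf.flat
  have := ModuleCat.reflectsIsomorphisms_extendScalars_of_faithfullyFlat.{0} hf
  exact reflects (F := ModuleCat.extendScalars.{0, 0, 0} f)

omit [HasDerivedCategory.{w'} (ModuleCat.{0} S)] in
theorem unit_nz [Nontrivial R] : ¬ IsZero (unitObj R) := by
  intro h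
  have h1 : IsZero (ModuleCat.of R R) := by
    rw [IsZero.iff_id_eq_zero] at h ⊢
    apply (DerivedCategory.singleFunctor (ModuleCat.{0} R) 0).map_injective
    rw [CategoryTheory.Functor.map_id, Functor.map_zero]
    exact h
  have h2 : Subsingleton R := ModuleCat.isZero_iff_subsingleton.1 h1
  exact not_subsingleton R h2

theorem low_zero (f : R →+* S) (h : ∀ j, Subsingleton (Ext (rS f) (ModuleCat.of R R) j))
    (Y : DerivedCategory (ModuleCat.{0} S)) (g : (lowStar f).obj Y ⟶ unitObj R) : g = 0 := by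
  let I : InjectiveResolution (ModuleCat.of R R) := InjectiveResolution.of _
  obtain ⟨hE⟩ := coE_null f h I
  have : IsIso (DerivedCategory.Q.map I.ι') := by
    rw [DerivedCategory.isIso_Q_map_iff_quasiIso]
    infer_instance
  let e : unitObj R ≅ DerivedCategory.Q.obj I.cochainComplex :=
    (DerivedCategory.singleFunctorIsoCompQ (ModuleCat.{0} R) 0).app _ ≪≫
      asIso (DerivedCategory.Q.map I.ι')
  have h1 := hom_zero (ModuleCat.restrictCoextendScalarsAdj.{0, 0, 0} f) I.cochainComplex hE Y
    (g ≫ e.hom)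
  rw [← cancel_mono e.hom, Limits.zero_comp]
  exact h1

/-- every right adjoint of every right adjoint of `f^*` kills the unit of `D(R)` -/
theorem shriek_zero (f : R →+* S) (hf : f.Flat)
    (h : ∀ j, Subsingleton (Ext (rS f) (ModuleCat.of R R) j))
    (fl : DerivedCategory (ModuleCat.{0} S) ⥤ DerivedCategory (ModuleCat.{0} R))
    (a : upStar f hf ⊣ fl)
    (fs : DerivedCategory (ModuleCat.{0} R) ⥤ DerivedCategory (ModuleCat.{0} S))
    (b : fl ⊣ fs) : IsZero (fs.obj (unitObj R)) := by
  have h1 : ∀ (Y : DerivedCategory (ModuleCat.{0} S)) (g : fl.obj Y ⟶ unitObj R), g = 0 := by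
    intro Y g
    let e : lowStar f ≅ fl := (starAdj f hf).rightAdjointUniq a
    rw [← cancel_epi (e.hom.app Y), Limits.comp_zero]
    exact low_zero f h Y _
  rw [IsZero.iff_id_eq_zero]
  apply (b.homEquiv _ _).symm.injective
  exact (h1 _ _).trans (h1 _ _).symm

theorem shriek_not (f : R →+* S) (hf : f.Flat) [Nontrivial R]
    (h : ∀ j, Subsingleton (Ext (rS f) (ModuleCat.of R R) j))
    (fl : DerivedCategory (ModuleCat.{0} S) ⥤ DerivedCategory (ModuleCat.{0} R))
    (a : upStar f hf ⊣ fl)
    (fs : DerivedCategory (ModuleCat.{0} R) ⥤ DerivedCategory (ModuleCat.{0} S))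
    (b : fl ⊣ fs) : ¬ fs.ReflectsIsomorphisms := by
  intro hr
  have h1 := shriek_zero f hf h fl a fs b
  obtain ⟨Z, hZ⟩ := (inferInstance : HasZeroObject (DerivedCategory (ModuleCat.{0} R))).zero
  have h2 : IsZero (fs.obj Z) := by
    rw [IsZero.iff_id_eq_zero]
    apply (b.homEquiv _ _).symm.injective
    exact hZ.eq_of_tgt _ _
  have h3 : IsIso (fs.map (0 : unitObj R ⟶ Z)) := h1.isIso h2 _
  have h4 : IsIso (0 : unitObj R ⟶ Z) := isIso_of_reflects_iso _ fs
  exact unit_nz (hZ.of_iso (asIso (0 : unitObj R ⟶ Z)))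

end fin

end Pool.Agent.Q37.FS
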