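import Pool.Agent.Q37.FS.Proj
import Pool.Agent.Q37.FS.Bc

/-!
# Divisible classes of small modules vanish (job DIV)
-/

namespace Pool.Agent.Q37.FS

open Pool.Agent.Q37.PC CategoryTheory CategoryTheory.Abelian TensorProduct

section

variable {B J : Type} [CommRing B] {F Λ : Type} [AddCommGroup F] [Module (MvPolynomial J B) F]
  (β : Module.Basis Λ (MvPolynomial J B) F)

lemma exists_var {κ : Cardinal.{0}} (hκ : Cardinal.aleph0 ≤ κ) (hJ : κ < Cardinal.mk J)
    {S : Type} (hS : Cardinal.mk S ≤ κ) (g : S → F) : ∃ i, ∀ x, i ∉ Vars β (g x) := by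
  by_contra hcon
  push Not at hcon
  have h1 : (Set.univ : Set J) ⊆ ⋃ x, Vars β (g x) := fun i _ => by
    obtain ⟨x, hx⟩ := hcon i
    exact Set.mem_iUnion.2 ⟨x, hx⟩
  have h2 : Cardinal.mk J ≤ κ := by
    rw [← Cardinal.mk_univ]
    refine (Cardinal.mk_le_mk_of_subset h1).trans ?_
    refine (Cardinal.mk_iUnion_le_sum_mk).trans ?_
    refine (Cardinal.sum_le_sum _ (fun _ => Cardinal.aleph0) fun x =>
      (Cardinal.mk_le_aleph0_iff.2 (Vars_countable β (g x)))).trans ?_
    rw [Cardinal.sum_const', ← Cardinal.mul_eq_self hκ]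
    exact mul_le_mul' hS hκ
  exact absurd h2 (not_le.2 hJ)

end

section

variable {A : Type} [CommRing A]

/-- the element `a` acts on `Ext` through the second variable -/
lemma smul_mk₀ {X Y : Type} [AddCommGroup X] [Module A X] [AddCommGroup Y] [Module A Y]
    (a : A) (φ : X →ₗ[A] Y) :
    a • Ext.mk₀ (ModuleCat.ofHom φ) = Ext.mk₀ (ModuleCat.ofHom (a • φ)) := by
  rw [← Ext.mk₀_smul]
  rfl

end

lemma ext_comp_sub {C : Type 1} [Category.{0} C] [Abelian C] [HasExt.{0} C] {X Y Z : C}
    {a b c : ℕ} (α : Ext X Y a) (β γ : Ext Y Z b) (h : a + b = c) :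
    α.comp (β - γ) h = α.comp β h - α.comp γ h := by
  rw [sub_eq_add_neg, Ext.comp_add, Ext.comp_neg, sub_eq_add_neg]

lemma card_finsupp {κ : Cardinal.{0}} (hκ : Cardinal.aleph0 ≤ κ) {X B : Type} [CommRing B]
    (hX : Cardinal.mk X ≤ κ) (hB : Cardinal.mk B ≤ κ) : Cardinal.mk (X →₀ B) ≤ κ := by
  have h1 : Function.Surjective (fun l : List (X × B) =>
      (l.map (fun p => Finsupp.single p.1 p.2)).sum) := by
    intro f
    induction f using Finsupp.induction_linear with
    | zero => exact ⟨[], rfl⟩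
    | add f g hf hg =>
      obtain ⟨l, hl⟩ := hf
      obtain ⟨m, hm⟩ := hg
      refine ⟨l ++ m, ?_⟩
      simp only [List.map_append, List.sum_append] at hl hm ⊢
      rw [hl, hm]
    | single a b => exact ⟨[(a, b)], by simp⟩
  refine (Cardinal.mk_le_of_surjective h1).trans ((Cardinal.mk_list_le_max _).trans
    (max_le hκ ?_))
  rw [Cardinal.mk_prod, Cardinal.lift_id, Cardinal.lift_id, ← Cardinal.mul_eq_self hκ]
  exact mul_le_mul' hX hB

theorem t_DIV : J_DIV := by
  intro B J _ κ hκ hB hJ X F _ _ _ _ _ hX n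
  let _ : Module B F := Module.compHom F (algebraMap B (MvPolynomial J B))
  have : IsScalarTower B (MvPolynomial J B) F := IsScalarTower.of_algebraMap_smul fun _ _ => rfl
  let β := Module.Free.chooseBasis (MvPolynomial J B) F
  induction n generalizing X with
  | zero =>
    intro η hη
    obtain ⟨φ, rfl⟩ := (Ext.mk₀_bijective _ _).2 η
    obtain ⟨i, hi⟩ := exists_var β hκ hJ hX fun x => φ.hom ((1 : MvPolynomial J B) ⊗ₜ x)
    obtain ⟨η', hη'⟩ := hη i
    obtain ⟨ψ, rfl⟩ := (Ext.mk₀_bijective _ _).2 η'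
    rw [← Ext.mk₀_smul] at hη'
    have h1 := (Ext.mk₀_bijective _ _).1 hη'
    have h2 : φ.hom = 0 := by
      refine bc_ext _ _ fun x => ?_
      rw [LinearMap.zero_apply, ← Kill_eq' β i _ (hi x), h1]
      exact Kill_X_smul β i _
    have h3 : φ = 0 := by
      ext1
      exact h2
    rw [h3, Ext.mk₀_zero]
  | succ n ih =>
    intro η hη
    obtain ⟨P, _, _, hP, hcard, π, hπ⟩ : ∃ (P : Type) (_ : AddCommGroup P) (_ : Module B P)
        (_ : Module.Free B P) (_ : Cardinal.mk P ≤ κ) (π : P →ₗ[B] X), Function.Surjective π := by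
      refine ⟨X →₀ B, inferInstance, inferInstance, inferInstance, ?_,
          Finsupp.linearCombination B (fun x : X => x),
          Finsupp.linearCombination_surjective _ Function.surjective_id⟩
      exact card_finsupp hκ hX hB
    have hK : Cardinal.mk (LinearMap.ker π) ≤ κ :=
      (Cardinal.mk_le_of_injective (Submodule.injective_subtype _)).trans hcard
    have hex : Function.Exact (LinearMap.ker π).subtype π := LinearMap.exact_subtype_ker_map π
    have hi := Submodule.injective_subtype (LinearMap.ker π)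
    have hexA := bc_exact (LinearMap.ker π).subtype π (MvPolynomial J B) hπ hex
    have hsA := bc_surj π (MvPolynomial J B) hπ
    have hiA : Function.Injective ((LinearMap.ker π).subtype.baseChange (MvPolynomial J B)) := by
      rw [LinearMap.baseChange_eq_ltensor]
      exact Module.Flat.lTensor_preserves_injective_linearMap _ hi
    have hS := sc_exact _ _ hexA hiA hsA
    have hproj : ∀ j, EV (MvPolynomial J B) (j + 1) (MvPolynomial J B ⊗[B] P) F := fun j =>
      EV.of_projective j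
    have hlift : ∀ (θ : Ext (ModuleCat.of (MvPolynomial J B) (MvPolynomial J B ⊗[B] X))
        (ModuleCat.of (MvPolynomial J B) F) (n + 1)),
        ∃ ξ : Ext (ModuleCat.of (MvPolynomial J B) (MvPolynomial J B ⊗[B] (LinearMap.ker π)))
        (ModuleCat.of (MvPolynomial J B) F) n, hS.extClass.comp ξ (add_comm 1 n) = θ := fun θ =>
      Ext.contravariant_sequence_exact₃ hS (ModuleCat.of _ F) θ ((hproj n).zero _) (add_comm 1 n)
    rcases n with _ | n
    · obtain ⟨ξ, hξ⟩ := hlift η
      obtain ⟨φ, rfl⟩ := (Ext.mk₀_bijective _ _).2 ξ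
      obtain ⟨i, hi⟩ := exists_var β hκ hJ hK fun x => φ.hom ((1 : MvPolynomial J B) ⊗ₜ x)
      obtain ⟨η', hη'⟩ := hη i
      obtain ⟨ξ', hξ'⟩ := hlift η'
      obtain ⟨φ', rfl⟩ := (Ext.mk₀_bijective _ _).2 ξ'
      have h1 : hS.extClass.comp (Ext.mk₀ (φ - (MvPolynomial.X i : MvPolynomial J B) • φ'))
          (add_zero 1) = 0 := by
        have h3 : Ext.mk₀ (φ - (MvPolynomial.X i : MvPolynomial J B) • φ') =
            Ext.mk₀ φ - (MvPolynomial.X i : MvPolynomial J B) • Ext.mk₀ φ' := by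
          rw [← Ext.mk₀_smul, eq_sub_iff_add_eq, ← Ext.mk₀_add, sub_add_cancel]
        rw [h3, ext_comp_sub, Ext.comp_smul, hξ, hξ', ← hη', sub_self]
      obtain ⟨ψ, hψ⟩ := Ext.contravariant_sequence_exact₁ hS (ModuleCat.of _ F)
        (Ext.mk₀ (φ - (MvPolynomial.X i : MvPolynomial J B) • φ')) rfl h1
      obtain ⟨ψ, rfl⟩ := (Ext.mk₀_bijective _ _).2 ψ
      rw [Ext.mk₀_comp_mk₀] at hψ
      have h2 := congrArg ModuleCat.Hom.hom ((Ext.mk₀_bijective _ _).1 hψ)
      have h4 : ∀ x : LinearMap.ker π, ψ.hom ((1 : MvPolynomial J B) ⊗ₜ (x : P)) =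
          φ.hom ((1 : MvPolynomial J B) ⊗ₜ x) -
            (MvPolynomial.X i : MvPolynomial J B) • φ'.hom ((1 : MvPolynomial J B) ⊗ₜ x) :=
        fun x => LinearMap.congr_fun h2 ((1 : MvPolynomial J B) ⊗ₜ x)
      let H : MvPolynomial J B ⊗[B] P →ₗ[MvPolynomial J B] F := LinearMap.liftBaseChange _
        (Kill β i ∘ₗ (ψ.hom.restrictScalars B) ∘ₗ (TensorProduct.mk B (MvPolynomial J B) P 1))
      have h5 : φ.hom = H ∘ₗ ((LinearMap.ker π).subtype.baseChange (MvPolynomial J B)) := by
        refine bc_ext _ _ fun x => ?_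
        rw [LinearMap.comp_apply, LinearMap.baseChange_tmul, LinearMap.liftBaseChange_tmul,
          one_smul]
        change _ = Kill β i (ψ.hom ((1 : MvPolynomial J B) ⊗ₜ (x : P)))
        rw [h4, map_sub, Kill_X_smul, sub_zero, Kill_eq' β i _ (hi x)]
      have h6 : φ = ModuleCat.ofHom ((LinearMap.ker π).subtype.baseChange (MvPolynomial J B)) ≫
          ModuleCat.ofHom H := by
        ext1
        exact h5
      rw [← hξ, h6, ← Ext.mk₀_comp_mk₀, ← Ext.comp_assoc (hS.extClass)
        (Ext.mk₀ (ModuleCat.ofHom ((LinearMap.ker π).subtype.baseChange (MvPolynomial J B))))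
        (Ext.mk₀ (ModuleCat.ofHom H)) (add_zero 1) (zero_add 0) (by rfl)]
      rw [show (hS.extClass).comp (Ext.mk₀ (ModuleCat.ofHom
        ((LinearMap.ker π).subtype.baseChange (MvPolynomial J B)))) (add_zero 1) = 0 from
        hS.extClass_comp, Ext.zero_comp]
    · obtain ⟨ξ, hξ⟩ := hlift η
      have h1 : ξ = 0 := by
        refine ih (LinearMap.ker π) hK ξ fun i => ?_
        obtain ⟨η', hη'⟩ := hη i
        obtain ⟨ξ', hξ'⟩ := hlift η'
        refine ⟨ξ', ?_⟩
        have h2 : hS.extClass.comp (ξ - (MvPolynomial.X i : MvPolynomial J B) • ξ')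
            (add_comm 1 (n + 1)) = 0 := by
          rw [ext_comp_sub, Ext.comp_smul, hξ, hξ', hη', sub_self]
        obtain ⟨y, hy⟩ := Ext.contravariant_sequence_exact₁ hS (ModuleCat.of _ F)
          (ξ - (MvPolynomial.X i : MvPolynomial J B) • ξ') (add_comm 1 (n + 1)) h2
        rw [(hproj n).zero y, Ext.comp_zero] at hy
        exact sub_eq_zero.1 hy.symm
      rw [← hξ, h1, Ext.comp_zero]

end Pool.Agent.Q37.FS
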