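import Pool.Agent.Q37.FS.Res

/-!
# The final vanishing (job FIN)
-/

namespace Pool.Agent.Q37.FS

open Pool.Agent.Q37.PC CategoryTheory CategoryTheory.Abelian TensorProduct

section

variable {I R₀ R S : Type} [CommRing R₀] [CommRing R] [CommRing S] [Algebra R S]
  {s t : I → R₀} {β : R₀ →+* R}

lemma Dec.ker {Z Z' : Type} [AddCommGroup Z] [Module S Z] [AddCommGroup Z'] [Module S Z']
    {β : R₀ →+* S} (h : Dec s t β Z) (π : Z →ₗ[S] Z) : Dec s t β (LinearMap.ker π) := by
  rcases h with h | h
  · exact Or.inl (h.ker h π)
  · exact Or.inr (h.ker h π)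

lemma Dec.quot {Z : Type} [AddCommGroup Z] [Module S Z] {β : R₀ →+* S} (h : Dec s t β Z)
    (π : Z →ₗ[S] Z) : Dec s t β (Z ⧸ LinearMap.ker π) := by
  rcases h with h | h
  · exact Or.inl (h.quot _ (h.ker h π))
  · exact Or.inr (h.quot _ (h.ker h π))

lemma inv_of_inverse {J Z : Type} [AddCommGroup Z] [Module S Z] {a : J → S} (u : J → S)
    (h : ∀ i (z : Z), (a i * u i) • z = z) : Inv a Z := by
  intro i
  refine Function.bijective_iff_has_inverse.2 ⟨fun z => u i • z, fun z => ?_, fun z => ?_⟩
  · change u i • a i • z = z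
    rw [smul_smul, mul_comm, h]
  · change a i • u i • z = z
    rw [smul_smul, h]

lemma dec_restrict {Z : Type} [AddCommGroup Z] [Module S Z] [Module R Z] [IsScalarTower R S Z]
    (h : Dec s t ((algebraMap R S).comp β) Z) : Dec s t β Z := by
  rcases h with h | h
  · refine Or.inl fun i => ?_
    have h1 := h i
    simp only [RingHom.comp_apply, algebraMap_smul] at h1
    exact h1
  · refine Or.inr fun i => ?_
    have h1 := h i
    simp only [RingHom.comp_apply, algebraMap_smul] at h1
    exact h1

end

lemma ev_sub_quot {R S Z Y : Type} [CommRing R] [CommRing S] [Algebra R S] [AddCommGroup Z]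
    [Module S Z] [Module R Z] [IsScalarTower R S Z] [AddCommGroup Y] [Module R Y]
    (K : Submodule S Z) (j : ℕ) (h1 : EV R j K Y) (h2 : EV R j (Z ⧸ K) Y) : EV R j Z Y := by
  have hex : Function.Exact (K.subtype.restrictScalars R) (K.mkQ.restrictScalars R) := by
    intro x
    change K.mkQ x = 0 ↔ x ∈ Set.range K.subtype
    exact LinearMap.exact_subtype_mkQ K x
  exact EV.con2 hex (Submodule.injective_subtype K) (Submodule.mkQ_surjective K) h1 h2

theorem t_FIN : J_FIN := by
  intro k I R₀ R _ _ _ _ _ s t β hG S _ _ hS j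
  have key : ∀ c m, m + c = j + 1 → ∀ (Z : Type) [AddCommGroup Z] [Module S Z] [Module R Z]
      [IsScalarTower R S Z],
      (∀ d, d < m → Dec s t ((algebraMap R S).comp (β d : R₀ →+* R)) Z) → EV R j Z R := by
    intro c
    induction c with
    | zero =>
      intro m hm Z _ _ _ _ hZ
      refine hG (j + 1) R Z R (fun d hd => ?_) j (Nat.lt_succ_self j)
      exact dec_restrict (S := S) (hZ d (by omega))
    | succ c ih =>
      intro m hm Z _ _ _ _ hZ
      obtain ⟨e, he, hu, hv⟩ := hS m
      choose u hu using hu
      choose v hv using hv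
      let π : Z →ₗ[S] Z := LinearMap.lsmul S Z (1 - e)
      have hK : ∀ z : LinearMap.ker π, e • z = z := by
        rintro ⟨z, hz⟩
        apply Subtype.ext
        have hz' : (1 - e) • z = 0 := hz
        rw [sub_smul, one_smul, sub_eq_zero] at hz'
        exact hz'.symm
      have hQ : ∀ z : Z ⧸ LinearMap.ker π, (1 - e) • z = z := by
        intro z
        obtain ⟨z, rfl⟩ := Submodule.mkQ_surjective _ z
        rw [sub_smul, one_smul, sub_eq_self, ← map_smul, Submodule.mkQ_apply,
          Submodule.Quotient.mk_eq_zero, LinearMap.mem_ker]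
        change (1 - e) • e • z = 0
        rw [smul_smul, sub_mul, one_mul, he, sub_self, zero_smul]
      have h1 : EV R j (LinearMap.ker π) R := by
        refine ih (m + 1) (by omega) (LinearMap.ker π) fun d hd => ?_
        rcases Nat.lt_succ_iff_lt_or_eq.1 hd with hd | rfl
        · exact Dec.ker (Z' := Z) (hZ d hd) π
        · refine Or.inl (inv_of_inverse u fun i z => ?_)
          have hui := hu i
          change ((algebraMap R S) ((β d : R₀ →+* R) (s i)) * u i) • z = z
          rw [hui]
          exact hK z
      have h2 : EV R j (Z ⧸ LinearMap.ker π) R := by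
        refine ih (m + 1) (by omega) (Z ⧸ LinearMap.ker π) fun d hd => ?_
        rcases Nat.lt_succ_iff_lt_or_eq.1 hd with hd | rfl
        · exact Dec.quot (hZ d hd) π
        · refine Or.inr (inv_of_inverse v fun i z => ?_)
          have hvi := hv i
          change ((algebraMap R S) ((β d : R₀ →+* R) (t i)) * v i) • z = z
          rw [hvi]
          exact hQ z
      exact ev_sub_quot (LinearMap.ker π) j h1 h2
  exact key (j + 1) 0 (by omega) S fun d hd => by omega

end Pool.Agent.Q37.FS
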