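import Pool.Agent.Q37.FS.Stm

/-!
# The infinite tensor power (job INF)
-/

namespace Pool.Agent.Q37.FS

open TensorProduct

section

variable (k R₀ : Type) [Field k] [CommRing R₀] [Algebra k R₀]

/-- the relations -/
def rels : Set (MvPolynomial (ℕ × R₀) k) :=
  {p | ∃ d x y, p = MvPolynomial.X (d, x + y) - (MvPolynomial.X (d, x) + MvPolynomial.X (d, y))} ∪
  {p | ∃ d x y, p = MvPolynomial.X (d, x * y) - MvPolynomial.X (d, x) * MvPolynomial.X (d, y)} ∪
  {p | ∃ d c, p = MvPolynomial.X (d, algebraMap k R₀ c) - MvPolynomial.C c}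

/-- the infinite tensor power -/
abbrev Infi : Type := MvPolynomial (ℕ × R₀) k ⧸ Ideal.span (rels k R₀)

variable {k R₀}

lemma mk_eq_of {a b : MvPolynomial (ℕ × R₀) k} (h : a - b ∈ rels k R₀) :
    Ideal.Quotient.mk (Ideal.span (rels k R₀)) a = Ideal.Quotient.mk _ b :=
  Ideal.Quotient.eq.2 (Ideal.subset_span h)

variable (k R₀) in
/-- the `d`-th factor -/
noncomputable def blk (d : ℕ) : R₀ →ₐ[k] Infi k R₀ where
  toFun x := Ideal.Quotient.mk _ (MvPolynomial.X (d, x))
  map_one' := by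
    have h := mk_eq_of (k := k) (R₀ := R₀) (Or.inr ⟨d, 1, rfl⟩)
    rw [map_one, map_one, map_one] at h
    exact h
  map_mul' x y := by
    have h := mk_eq_of (k := k) (R₀ := R₀) (Or.inl (Or.inr ⟨d, x, y, rfl⟩))
    rw [map_mul] at h
    exact h
  map_zero' := by
    have h := mk_eq_of (k := k) (R₀ := R₀) (Or.inr ⟨d, 0, rfl⟩)
    rw [map_zero, map_zero, map_zero] at h
    exact h
  map_add' x y := by
    have h := mk_eq_of (k := k) (R₀ := R₀) (Or.inl (Or.inl ⟨d, x, y, rfl⟩))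
    rw [map_add] at h
    exact h
  commutes' c := by
    have h := mk_eq_of (k := k) (R₀ := R₀) (Or.inr ⟨d, c, rfl⟩)
    exact h

variable {T : Type} [CommRing T] [Algebra k T]

/-- the universal property -/
noncomputable def desc (f : ℕ → (R₀ →ₐ[k] T)) : Infi k R₀ →ₐ[k] T :=
  Ideal.Quotient.liftₐ _ (MvPolynomial.aeval (fun p : ℕ × R₀ => f p.1 p.2)) (by
    intro a ha
    have h1 : Ideal.span (rels k R₀) ≤ RingHom.ker
        (MvPolynomial.aeval (R := k) (fun p : ℕ × R₀ => f p.1 p.2)) := by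
      rw [Ideal.span_le]
      rintro p ((⟨d, x, y, rfl⟩ | ⟨d, x, y, rfl⟩) | ⟨d, c, rfl⟩)
      · simp [RingHom.mem_ker]
      · simp [RingHom.mem_ker]
      · simp [RingHom.mem_ker]
    exact h1 ha)

lemma desc_blk (f : ℕ → (R₀ →ₐ[k] T)) (d : ℕ) : (desc f).comp (blk k R₀ d) = f d := by
  ext x
  change MvPolynomial.aeval (fun p : ℕ × R₀ => f p.1 p.2) (MvPolynomial.X (d, x)) = _
  rw [MvPolynomial.aeval_X]

lemma hom_ext {φ ψ : Infi k R₀ →ₐ[k] T} (h : ∀ d, φ.comp (blk k R₀ d) = ψ.comp (blk k R₀ d)) :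
    φ = ψ := by
  apply Ideal.Quotient.algHom_ext
  apply MvPolynomial.algHom_ext
  rintro ⟨d, x⟩
  exact AlgHom.congr_fun (h d) x

end

theorem t_INF : J_INF := by
  intro k R₀ _ _ _ _
  refine ⟨Infi k R₀, inferInstance, inferInstance, ?_, ?_⟩
  · exact RingHom.domain_nontrivial (desc (fun _ => AlgHom.id k R₀) : Infi k R₀ →+* R₀)
  · let a : R₀ ⊗[k] Infi k R₀ →ₐ[k] Infi k R₀ :=
      Algebra.TensorProduct.lift (blk k R₀ 0) (desc fun d => blk k R₀ (d + 1))
        (fun _ _ => Commute.all _ _)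
    let b : Infi k R₀ →ₐ[k] R₀ ⊗[k] Infi k R₀ := desc (shift (blk k R₀))
    have ha0 : a.comp Algebra.TensorProduct.includeLeft = blk k R₀ 0 :=
      Algebra.TensorProduct.lift_comp_includeLeft _ _ _
    have ha1 : (a.restrictScalars k).comp Algebra.TensorProduct.includeRight =
        desc fun d => blk k R₀ (d + 1) :=
      Algebra.TensorProduct.lift_comp_includeRight _ _ _
    refine ⟨AlgEquiv.ofAlgHom a b ?_ ?_⟩
    · refine hom_ext fun d => ?_
      rw [AlgHom.comp_assoc, desc_blk, AlgHom.id_comp]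
      cases d with
      | zero => exact ha0
      | succ d =>
        change (a.comp Algebra.TensorProduct.includeRight).comp (blk k R₀ d) = _
        have h2 : a.comp Algebra.TensorProduct.includeRight = desc fun d => blk k R₀ (d + 1) := ha1
        rw [h2, desc_blk]
    · refine Algebra.TensorProduct.ext ?_ ?_
      · rw [AlgHom.comp_assoc, ha0, desc_blk, AlgHom.id_comp]
        rfl
      · refine hom_ext fun d => ?_
        ext x
        have h3 : a ((1 : R₀) ⊗ₜ[k] (blk k R₀ d x)) = blk k R₀ (d + 1) x := by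
          rw [Algebra.TensorProduct.lift_tmul, map_one, one_mul]
          exact AlgHom.congr_fun (desc_blk (fun d => blk k R₀ (d + 1)) d) x
        have h4 : b (blk k R₀ (d + 1) x) = (1 : R₀) ⊗ₜ[k] (blk k R₀ d x) :=
          AlgHom.congr_fun (desc_blk (shift (blk k R₀)) (d + 1)) x
        change b (a ((1 : R₀) ⊗ₜ[k] (blk k R₀ d x))) = (1 : R₀) ⊗ₜ[k] (blk k R₀ d x)
        rw [h3, h4]

end Pool.Agent.Q37.FS
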