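import Pool.Agent.Q37.FS.Res

/-!
# The vanishing for `B` gives the vanishing over every `B`-algebra (job LIFT)
-/

namespace Pool.Agent.Q37.FS

open Pool.Agent.Q37.PC CategoryTheory CategoryTheory.Abelian TensorProduct

section

variable {B : Type} [CommRing B] {I : Type} (b : I → B)

/-- the monoid generated by the elements `b i` -/
abbrev mon : Submonoid B := Submonoid.closure (Set.range b)

/-- the universal module -/
abbrev Loc : Type := Localization (mon b)

lemma inv_of_isUnit {A : Type} [CommRing A] [Algebra B A]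
    (h : ∀ i, IsUnit (algebraMap B A (b i))) : Inv b A := by
  intro i
  have h1 : (fun z : A => b i • z) = fun z : A => algebraMap B A (b i) * z := by
    funext z
    rw [Algebra.smul_def]
  rw [h1]
  obtain ⟨u, hu⟩ := h i
  rw [← hu]
  exact u.mulLeft_bijective

lemma inv_Loc : Inv b (Loc b) :=
  inv_of_isUnit b fun i =>
    IsLocalization.map_units (Loc b)
      (⟨b i, Submonoid.subset_closure ⟨i, rfl⟩⟩ : (mon b : Submonoid B))

/-- the action of an element acting bijectively, as an equivalence -/
noncomputable def actEquiv {Z : Type} [AddCommGroup Z] [Module B Z] (x : B)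
    (h : Function.Bijective (fun z : Z => x • z)) : Z ≃ₗ[B] Z :=
  LinearEquiv.ofBijective (LinearMap.lsmul B Z x) h

lemma inv_tensor {A : Type} [CommRing A] [Algebra B A] {L : Type} [AddCommGroup L] [Module B L]
    (hL : Inv b L) : Inv (fun i => algebraMap B A (b i)) (A ⊗[B] L) := by
  intro i
  have h1 : (fun z : A ⊗[B] L => algebraMap B A (b i) • z)
      = (LinearEquiv.lTensor A (actEquiv (b i) (hL i)) : A ⊗[B] L → A ⊗[B] L) := by
    funext z
    induction z with
    | zero => simp
    | tmul a l =>
      rw [algebraMap_smul, TensorProduct.smul_tmul']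
      change _ = a ⊗ₜ[B] (b i • l)
      rw [TensorProduct.smul_tmul]
    | add x y hx hy => rw [smul_add, hx, hy, map_add]
  rw [h1]
  exact (LinearEquiv.lTensor A (actEquiv (b i) (hL i))).bijective

lemma isUnit_of_inv {Z : Type} [AddCommGroup Z] [Module B Z] (hZ : Inv b Z) (x : mon b) :
    IsUnit (algebraMap B (Module.End B Z) x) := by
  obtain ⟨x, hx⟩ := x
  change IsUnit (algebraMap B (Module.End B Z) x)
  induction hx using Submonoid.closure_induction with
  | mem x hx =>
    obtain ⟨i, rfl⟩ := hx
    rw [Module.End.isUnit_iff]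
    exact hZ i
  | one => rw [map_one]; exact isUnit_one
  | mul x y _ _ hx hy => rw [map_mul]; exact hx.mul hy

lemma exists_of_inv {A : Type} [CommRing A] [Algebra B A] {Z : Type} [AddCommGroup Z]
    [Module A Z] (hZ : Inv (fun i => algebraMap B A (b i)) Z) (z : Z) :
    ∃ f : A ⊗[B] Loc b →ₗ[A] Z, f (1 ⊗ₜ 1) = z := by
  let _ : Module B Z := Module.compHom Z (algebraMap B A)
  have : IsScalarTower B A Z := IsScalarTower.of_algebraMap_smul fun _ _ => rfl
  have hZ' : Inv b Z := hZ
  let g : Loc b →ₗ[B] Z := IsLocalizedModule.lift (mon b) (Algebra.linearMap B (Loc b))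
    (LinearMap.toSpanSingleton B Z z) (isUnit_of_inv b hZ')
  refine ⟨LinearMap.liftBaseChange A g, ?_⟩
  rw [LinearMap.liftBaseChange_tmul, one_smul]
  have h1 := IsLocalizedModule.lift_apply (mon b) (Algebra.linearMap B (Loc b))
    (LinearMap.toSpanSingleton B Z z) (isUnit_of_inv b hZ') 1
  simpa using h1

end

theorem t_LIFT (hBC : J_BC) (hRES : J_RES) : J_LIFT := by
  intro B _ I b n hV A _ _ Z F _ _ _ _ _ _ _ hZ j hj
  have : Module.Flat B (Loc b) := IsLocalization.flat (Loc b) (mon b)
  refine hRES A I (fun i => algebraMap B A (b i)) (A ⊗[B] Loc b) (inv_tensor b (inv_Loc b)) ?_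
    F n ?_ Z hZ j hj
  · intro Z _ _ hZ z
    obtain ⟨f, hf⟩ := exists_of_inv b hZ z
    exact ⟨f, _, hf⟩
  · intro j hj
    exact hBC B A (Loc b) F j (hV (Loc b) F (inv_Loc b) j hj)

end Pool.Agent.Q37.FS
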