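import Pool.Agent.Q37.FS.Lift

/-!
# One more block (job ONE)
-/

namespace Pool.Agent.Q37.FS

open Pool.Agent.Q37.PC CategoryTheory CategoryTheory.Abelian TensorProduct

section

/-- `M ⊗_{R₀} V` is free over `A` when `M` is free over `R₀` and `V` is free over `A` -/
lemma free_tensor {A R₀ M V : Type} [CommRing A] [CommRing R₀] [Algebra A R₀]
    [AddCommGroup M] [Module R₀ M] [Module.Free R₀ M] [AddCommGroup V] [Module R₀ V]
    [Module A V] [IsScalarTower A R₀ V] [Module.Free A V] [Module A M] [IsScalarTower A R₀ M] :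
    Module.Free A (M ⊗[R₀] V) := by
  classical
  let β := Module.Free.chooseBasis R₀ M
  let e : M ⊗[R₀] V ≃ₗ[R₀] (Module.Free.ChooseBasisIndex R₀ M →₀ V) :=
    (TensorProduct.congr β.repr (LinearEquiv.refl R₀ V)) ≪≫ₗ
      TensorProduct.finsuppScalarLeft R₀ V _
  exact Module.Free.of_equiv (e.restrictScalars A).symm

lemma smulComm {R₀ P M : Type} (C : Type) [CommRing R₀] [CommRing P] [CommRing C]
    [Algebra R₀ C] [Algebra P C] [AddCommGroup M] [Module C M] [Module R₀ M]
    [IsScalarTower R₀ C M] [Module P M] [IsScalarTower P C M] : SMulCommClass R₀ P M :=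
  ⟨fun r p m => by
    rw [← algebraMap_smul C r (p • m), ← algebraMap_smul C p m, ← algebraMap_smul C r m,
      ← algebraMap_smul C p ((algebraMap R₀ C r) • m), smul_smul, smul_smul, mul_comm]⟩

/-- `M ⊗_{R₀} Q` is free over `P` when `M` is free over `C = R₀ ⊗_k P` -/
lemma free_tensor2 {k R₀ P C M Q : Type} [Field k] [CommRing R₀] [Algebra k R₀] [CommRing P]
    [Algebra k P] [CommRing C] [Algebra k C] [Algebra R₀ C] [Algebra P C] [IsScalarTower k R₀ C]
    [IsScalarTower k P C] [Algebra.IsPushout k P R₀ C] [AddCommGroup M] [Module C M]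
    [Module.Free C M] [Module R₀ M] [IsScalarTower R₀ C M] [Module P M] [IsScalarTower P C M]
    [SMulCommClass R₀ P M] [AddCommGroup Q] [Module R₀ Q] : Module.Free P (M ⊗[R₀] Q) := by
  classical
  let _ : Module k Q := Module.compHom Q (algebraMap k R₀)
  have : IsScalarTower k R₀ Q := IsScalarTower.of_algebraMap_smul fun _ _ => rfl
  let β := Module.Free.chooseBasis C M
  let e : M ⊗[R₀] Q ≃ₗ[C] (Module.Free.ChooseBasisIndex C M →₀ (C ⊗[R₀] Q)) :=
    (AlgebraTensorModule.congr β.repr (LinearEquiv.refl R₀ Q)) ≪≫ₗ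
      TensorProduct.finsuppLeft R₀ C C Q _
  have h1 : Module.Free P (C ⊗[R₀] Q) :=
    Module.Free.of_equiv (Algebra.IsPushout.cancelBaseChange k P R₀ C Q).symm
  exact Module.Free.of_equiv (e.restrictScalars P).symm

/-- dimension shift along `0 → M → M ⊗ V → M ⊗ Q → 0` -/
lemma ev_shift {R₀ R M V Z : Type} [CommRing R₀] [CommRing R] [Algebra R₀ R] [AddCommGroup M]
    [Module R M] [Module R₀ M] [IsScalarTower R₀ R M] [Module.Flat R₀ M] [AddCommGroup V]
    [Module R₀ V] [AddCommGroup Z] [Module R Z] (f : R₀ →ₗ[R₀] V) (hf : Function.Injective f)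
    (n : ℕ) (h1 : ∀ j, EV R j Z (M ⊗[R₀] V))
    (h2 : ∀ j, j < n → EV R j Z (M ⊗[R₀] (V ⧸ LinearMap.range f))) (j : ℕ) (hj : j < n + 1) :
    EV R j Z M := by
  let F : M ⊗[R₀] R₀ →ₗ[R] M ⊗[R₀] V := AlgebraTensorModule.map (LinearMap.id) f
  let G : M ⊗[R₀] V →ₗ[R] M ⊗[R₀] (V ⧸ LinearMap.range f) :=
    AlgebraTensorModule.map (LinearMap.id) (LinearMap.range f).mkQ
  have hF : Function.Injective F :=
    Module.Flat.lTensor_preserves_injective_linearMap (M := M) f hf
  have hG : Function.Surjective G :=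
    LinearMap.lTensor_surjective M (Submodule.mkQ_surjective (LinearMap.range f))
  have hex : Function.Exact F G :=
    lTensor_exact M (LinearMap.exact_map_mkQ_range f) (Submodule.mkQ_surjective _)
  refine EV.congr_right (AlgebraTensorModule.rid R₀ R M) ?_
  rcases j with _ | j
  · have h3 := h1 0
    rw [ev0_iff] at h3 ⊢
    intro φ
    ext z
    apply hF
    rw [LinearMap.zero_apply, map_zero]
    exact LinearMap.congr_fun (h3 (F ∘ₗ φ)) z
  · exact EV.cov1 hex hF hG (h2 j (by omega)) (h1 (j + 1))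

end

section

variable {k I R₀ : Type} [Field k] [CommRing R₀] [Algebra k R₀]

lemma one_side (hLIFT : J_LIFT) (s t σ : I → R₀)
    (hA : ∀ n, Van (MvPolynomial I k) (fun j : I => (MvPolynomial.X j : MvPolynomial I k)) n)
    (hE : Emb k R₀ I σ) (n : ℕ) (P : Type) [CommRing P] [Algebra k P] (β : ℕ → (R₀ →ₐ[k] P))
    (hG : Good k I R₀ s t n P β) (R : Type) [CommRing R] [Algebra (R₀ ⊗[k] P) R]
    (Z M : Type) [AddCommGroup Z] [Module R Z] [AddCommGroup M] [Module R M]
    [Module (R₀ ⊗[k] P) M] [IsScalarTower (R₀ ⊗[k] P) R M] [Module.Free (R₀ ⊗[k] P) M]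
    (hσ : Inv (fun i => algebraMap (R₀ ⊗[k] P) R (σ i ⊗ₜ 1)) Z)
    (hd : ∀ d, d < n → Dec s t
      ((algebraMap (R₀ ⊗[k] P) R).comp (shift β (d + 1) : R₀ →+* R₀ ⊗[k] P)) Z)
    (j : ℕ) (hj : j < n + 1) : EV R j Z M := by
  obtain ⟨V, _, _, f, hf, hfree⟩ := hE
  -- the `R₀`-structures
  let _ : Algebra R₀ R := ((algebraMap (R₀ ⊗[k] P) R).comp (algebraMap R₀ (R₀ ⊗[k] P))).toAlgebra
  let _ : Module R₀ M := Module.compHom M (algebraMap R₀ (R₀ ⊗[k] P))
  have : IsScalarTower R₀ (R₀ ⊗[k] P) M := IsScalarTower.of_algebraMap_smul fun _ _ => rfl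
  have : IsScalarTower R₀ R M := IsScalarTower.of_algebraMap_smul fun r m =>
    algebraMap_smul R (algebraMap R₀ (R₀ ⊗[k] P) r) m
  have : Module.Free R₀ M := Module.Free.trans (S := R₀ ⊗[k] P) (M := M)
  refine ev_shift f hf n (fun j => ?_) (fun j hj => ?_) j hj
  · let _ : Algebra (MvPolynomial I k) R₀ :=
      ((MvPolynomial.aeval σ : MvPolynomial I k →ₐ[k] R₀) : MvPolynomial I k →+* R₀).toAlgebra
    let _ : Module (MvPolynomial I k) V := Module.compHom V
      ((MvPolynomial.aeval σ : MvPolynomial I k →ₐ[k] R₀) : MvPolynomial I k →+* R₀)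
    have : IsScalarTower (MvPolynomial I k) R₀ V :=
      IsScalarTower.of_algebraMap_smul fun _ _ => rfl
    let _ : Algebra (MvPolynomial I k) R :=
      ((algebraMap R₀ R).comp (algebraMap (MvPolynomial I k) R₀)).toAlgebra
    let _ : Module (MvPolynomial I k) M := Module.compHom M (algebraMap (MvPolynomial I k) R₀)
    have : IsScalarTower (MvPolynomial I k) R₀ M :=
      IsScalarTower.of_algebraMap_smul fun _ _ => rfl
    have : IsScalarTower (MvPolynomial I k) R M :=
      IsScalarTower.of_algebraMap_smul fun a m =>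
        algebraMap_smul R (algebraMap (MvPolynomial I k) R₀ a) m
    have : Module.Free (MvPolynomial I k) V := hfree
    have hfr : Module.Free (MvPolynomial I k) (M ⊗[R₀] V) := free_tensor
    refine hLIFT (MvPolynomial I k) I _ (j + 1) (hA (j + 1)) R Z (M ⊗[R₀] V) ?_ j
      (Nat.lt_succ_self j)
    intro i
    have h1 : algebraMap (MvPolynomial I k) R (MvPolynomial.X i) =
        algebraMap (R₀ ⊗[k] P) R (σ i ⊗ₜ 1) := by
      change algebraMap (R₀ ⊗[k] P) R (algebraMap R₀ (R₀ ⊗[k] P)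
        (MvPolynomial.aeval σ (MvPolynomial.X i))) = _
      rw [MvPolynomial.aeval_X]
      rfl
    change Function.Bijective
      fun z : Z => (algebraMap (MvPolynomial I k) R) (MvPolynomial.X i) • z
    rw [h1]
    exact hσ i
  · let _ : Algebra P (R₀ ⊗[k] P) := Algebra.TensorProduct.rightAlgebra
    let _ : Algebra P R := ((algebraMap (R₀ ⊗[k] P) R).comp (algebraMap P (R₀ ⊗[k] P))).toAlgebra
    let _ : Module P M := Module.compHom M (algebraMap P (R₀ ⊗[k] P))
    have : IsScalarTower P (R₀ ⊗[k] P) M := IsScalarTower.of_algebraMap_smul fun _ _ => rfl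
    have : IsScalarTower P R M := IsScalarTower.of_algebraMap_smul fun r m =>
      algebraMap_smul R (algebraMap P (R₀ ⊗[k] P) r) m
    have : SMulCommClass R₀ P M := smulComm (R₀ ⊗[k] P)
    have hfr : Module.Free P (M ⊗[R₀] (V ⧸ LinearMap.range f)) :=
      free_tensor2 (k := k) (C := R₀ ⊗[k] P)
    exact hG R Z (M ⊗[R₀] (V ⧸ LinearMap.range f)) (fun d hdn => hd d hdn) j hj

end

theorem t_ONE (hLIFT : J_LIFT) : J_ONE := by
  intro k I R₀ _ _ _ s t hA hs ht n P _ _ β hG R _ _ Z M _ _ _ _ _ _ _ hd j hj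
  rcases hd 0 (Nat.succ_pos n) with h | h
  · exact one_side hLIFT s t s hA hs n P β hG R Z M h (fun d hdn => hd (d + 1) (by omega)) j hj
  · exact one_side hLIFT s t t hA ht n P β hG R Z M h (fun d hdn => hd (d + 1) (by omega)) j hj

end Pool.Agent.Q37.FS
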