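import Pool.Agent.Q37.FS.Proj

/-!
# Torsion modules (job TORS)
-/

namespace Pool.Agent.Q37.FS

open Pool.Agent.Q37.PC CategoryTheory CategoryTheory.Abelian TensorProduct

section

/-- `Ext^j_A(Z, F) = 0` for `F` projective over `B` -/
lemma lift_proj (hBC : J_BC) (hRES : J_RES) {B : Type} [CommRing B] {I : Type} {b : I → B} {n : ℕ}
    (hV : Van B b n) (A : Type) [CommRing A] [Algebra B A] (Z F : Type) [AddCommGroup Z]
    [Module A Z] [AddCommGroup F] [Module A F] [Module B F] [IsScalarTower B A F]
    [Module.Projective B F] (hZ : Inv (fun i => algebraMap B A (b i)) Z) (j : ℕ) (hj : j < n) :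
    EV A j Z F := by
  have : Module.Flat B (Loc b) := IsLocalization.flat (Loc b) (mon b)
  refine hRES A I (fun i => algebraMap B A (b i)) (A ⊗[B] Loc b) (inv_tensor b (inv_Loc b)) ?_
    F n ?_ Z hZ j hj
  · intro Z _ _ hZ z
    obtain ⟨f, hf⟩ := exists_of_inv b hZ z
    exact ⟨f, _, hf⟩
  · intro j hj
    refine hBC B A (Loc b) F j ?_
    obtain ⟨s, hs⟩ := (Module.projective_def' (R := B) (P := F)).1 inferInstance
    exact EV.retract_right s _ hs (hV (Loc b) (F →₀ B) (inv_Loc b) j hj)

variable {B : Type} [CommRing B] {I J : Type} {b : I → B} {n : ℕ}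
variable {F : Type} [AddCommGroup F] [Module (MvPolynomial J B) F]

/-- `F / x_i F` is projective over `B` -/
lemma projective_quot [Module.Free (MvPolynomial J B) F] [Module B F]
    [IsScalarTower B (MvPolynomial J B) F] (i : J) :
    Module.Projective B (F ⧸ LinearMap.range
      (LinearMap.lsmul (MvPolynomial J B) F (MvPolynomial.X i))) := by
  have hF : Module.Free B F := Module.Free.trans (S := MvPolynomial J B) (M := F)
  let β := Module.Free.chooseBasis (MvPolynomial J B) F
  set N := LinearMap.range (LinearMap.lsmul (MvPolynomial J B) F (MvPolynomial.X i)) with hN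
  let σ : (F ⧸ N) →ₗ[B] F := (N.restrictScalars B).liftQ (Kill β i) (by
    rintro _ ⟨f, rfl⟩
    rw [LinearMap.mem_ker]
    exact Kill_X_smul β i f)
  have hσ : (N.mkQ.restrictScalars B) ∘ₗ σ = LinearMap.id := by
    apply LinearMap.ext
    intro x
    obtain ⟨f, rfl⟩ := N.mkQ_surjective x
    change N.mkQ (Kill β i f) = N.mkQ f
    obtain ⟨g, hg⟩ := Kill_sub β i f
    rw [← sub_eq_zero, ← map_sub, ← neg_sub, hg, map_neg, neg_eq_zero, Submodule.mkQ_apply,
      Submodule.Quotient.mk_eq_zero]
    exact ⟨g, rfl⟩
  exact Module.Projective.of_split σ _ hσ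

/-- modules killed by a monomial -/
lemma killed (hBC : J_BC) (hRES : J_RES) (hV : Van B b n)
    [Module.Free (MvPolynomial J B) F] (a : MvPolynomial J B)
    (ha : a ∈ Submonoid.closure (Set.range (MvPolynomial.X : J → MvPolynomial J B))) :
    ∀ (T : Type) [AddCommGroup T] [Module (MvPolynomial J B) T],
      Inv (fun i => (MvPolynomial.C (b i) : MvPolynomial J B)) T → (∀ t : T, a • t = 0) →
      EV (MvPolynomial J B) n T F := by
  let _ : Module B F := Module.compHom F (algebraMap B (MvPolynomial J B))
  have : IsScalarTower B (MvPolynomial J B) F := IsScalarTower.of_algebraMap_smul fun _ _ => rfl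
  let β := Module.Free.chooseBasis (MvPolynomial J B) F
  induction ha using Submonoid.closure_induction with
  | mem a ha =>
    obtain ⟨i, rfl⟩ := ha
    intro T _ _ hT hk
    have hreg : Function.Injective (LinearMap.lsmul (MvPolynomial J B) F (MvPolynomial.X i)) :=
      mono_smul_injective β (Finsupp.single i 1)
    rcases n with _ | n
    · rw [ev0_iff]
      intro φ
      ext t
      apply hreg
      change (MvPolynomial.X i : MvPolynomial J B) • φ t = (MvPolynomial.X i : MvPolynomial J B) • 0
      rw [← map_smul, hk, map_zero, smul_zero]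
    · have hP := projective_quot (B := B) (F := F) i
      have h1 := lift_proj hBC hRES hV (MvPolynomial J B) T (F ⧸ LinearMap.range
        (LinearMap.lsmul (MvPolynomial J B) F (MvPolynomial.X i))) hT n (Nat.lt_succ_self n)
      have hS := sc_exact (LinearMap.lsmul (MvPolynomial J B) F (MvPolynomial.X i))
        (Submodule.mkQ _) (LinearMap.exact_map_mkQ_range _) hreg (Submodule.mkQ_surjective _)
      refine EV.mk fun x => ?_
      have h2 : x.comp (Ext.mk₀ (ModuleCat.ofHom (LinearMap.lsmul (MvPolynomial J B) F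
          (MvPolynomial.X i)))) (add_zero (n + 1)) = 0 := by
        have h3 : ModuleCat.ofHom (LinearMap.lsmul (MvPolynomial J B) F (MvPolynomial.X i)) =
            (MvPolynomial.X i : MvPolynomial J B) • 𝟙 (ModuleCat.of (MvPolynomial J B) F) := by
          ext x
          rfl
        rw [h3, Ext.mk₀_smul, Ext.comp_smul, Ext.comp_mk₀_id]
        have h4 : (MvPolynomial.X i : MvPolynomial J B) • x =
            ((MvPolynomial.X i : MvPolynomial J B) • Ext.mk₀ (𝟙 _)).comp x (zero_add _) := by
          rw [Ext.smul_comp, Ext.mk₀_id_comp]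
        rw [h4, ← Ext.mk₀_smul]
        have h5 : (MvPolynomial.X i : MvPolynomial J B) • 𝟙 (ModuleCat.of (MvPolynomial J B) T)
            = 0 := by
          ext t
          exact hk t
        rw [h5, Ext.mk₀_zero, Ext.zero_comp]
      obtain ⟨y, hy⟩ := Ext.covariant_sequence_exact₁ (ModuleCat.of _ T) hS x h2 rfl
      rw [← hy, h1.zero y, Ext.zero_comp]
  | one =>
    intro T _ _ _ hk
    have : Subsingleton T := subsingleton_of_forall_eq 0 fun t => by simpa using hk t
    refine EV.mk fun x => ?_
    have h1 : (𝟙 (ModuleCat.of (MvPolynomial J B) T)) = 0 := by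
      ext t
      exact Subsingleton.elim _ _
    rw [← Ext.mk₀_id_comp x, h1, Ext.mk₀_zero, Ext.zero_comp]
  | mul x y _ _ hx hy =>
    intro T _ _ hT hk
    let K := LinearMap.ker (LinearMap.lsmul (MvPolynomial J B) T x)
    have hK : Inv (fun i => (MvPolynomial.C (b i) : MvPolynomial J B)) K := hT.ker hT _
    have hQ : Inv (fun i => (MvPolynomial.C (b i) : MvPolynomial J B)) (T ⧸ K) := hT.quot _ hK
    refine EV.con2 (f := K.subtype) (g := K.mkQ) (LinearMap.exact_subtype_mkQ K)
      (Submodule.injective_subtype _) (Submodule.mkQ_surjective _) (hx K hK fun t => ?_)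
      (hy (T ⧸ K) hQ fun t => ?_)
    · apply Subtype.ext
      exact t.2
    · obtain ⟨t, rfl⟩ := K.mkQ_surjective t
      rw [← map_smul, Submodule.mkQ_apply, Submodule.Quotient.mk_eq_zero, LinearMap.mem_ker]
      change x • y • t = 0
      rw [smul_smul]
      exact hk t

end

lemma ev_of_cover (hSUM : J_SUM) {R ι I : Type} [CommRing R] {s : I → R} {X : ι → Type}
    [∀ i, AddCommGroup (X i)] [∀ i, Module R (X i)] {T Y : Type} [AddCommGroup T] [Module R T]
    [AddCommGroup Y] [Module R Y] {j : ℕ} (f : ∀ i, X i →ₗ[R] T)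
    (hf : ∀ t, ∃ i x, f i x = t) (hX : ∀ i, Inv s (X i)) (hT : Inv s T)
    (h1 : ∀ i, EV R (j + 1) (X i) Y)
    (h2 : ∀ (Z : Type) [AddCommGroup Z] [Module R Z], Inv s Z → EV R j Z Y) :
    EV R (j + 1) T Y := by
  classical
  let π : DirectSum ι X →ₗ[R] T := DirectSum.toModule R ι T f
  have hπ : Function.Surjective π := by
    intro t
    obtain ⟨i, x, hx⟩ := hf t
    refine ⟨DirectSum.lof R ι X i x, ?_⟩
    simp only [π, DirectSum.toModule_lof]
    exact hx
  have hD : Inv s (DirectSum ι X) := Inv.directSum hX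
  exact EV.con3 (f := (LinearMap.ker π).subtype) (g := π) (LinearMap.exact_subtype_ker_map π)
      (Submodule.injective_subtype _) hπ (h2 _ (hD.ker hT π)) (hSUM R ι X Y (j + 1) h1)

lemma monomial_mem {B J : Type} [CommRing B] (μ : J →₀ ℕ) :
    (MvPolynomial.monomial μ (1 : B)) ∈
      Submonoid.closure (Set.range (MvPolynomial.X : J → MvPolynomial J B)) := by
  classical
  induction μ using Finsupp.induction_linear with
  | zero => exact one_mem _
  | add f g hf hg =>
    rw [show MvPolynomial.monomial (f + g) (1 : B) = MvPolynomial.monomial f 1 *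
      MvPolynomial.monomial g 1 by rw [MvPolynomial.monomial_mul, one_mul]]
    exact mul_mem hf hg
  | single i m =>
    rw [← MvPolynomial.X_pow_eq_monomial]
    exact pow_mem (Submonoid.subset_closure (Set.mem_range_self i)) _

theorem t_TORS (hSUM : J_SUM) (hBC : J_BC) (hRES : J_RES) : J_TORS := by
  classical
  intro B _ I b n hV J T F _ _ _ _ _ hT htor
  let β := Module.Free.chooseBasis (MvPolynomial J B) F
  rcases n with _ | n
  · rw [ev0_iff]
    intro φ
    ext t
    obtain ⟨m, hm⟩ := htor t
    apply mono_smul_injective β m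
    change (MvPolynomial.monomial m (1 : B)) • φ t = (MvPolynomial.monomial m (1 : B)) • 0
    rw [← map_smul, hm, map_zero, smul_zero]
  · let _ : Module B F := Module.compHom F (algebraMap B (MvPolynomial J B))
    have : IsScalarTower B (MvPolynomial J B) F :=
      IsScalarTower.of_algebraMap_smul fun _ _ => rfl
    have hF : Module.Free B F := Module.Free.trans (S := MvPolynomial J B) (M := F)
    let K : (J →₀ ℕ) → Submodule (MvPolynomial J B) T := fun m =>
      LinearMap.ker (LinearMap.lsmul (MvPolynomial J B) T (MvPolynomial.monomial m (1 : B)))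
    have hK : ∀ m, Inv (fun i => (MvPolynomial.C (b i) : MvPolynomial J B)) (K m) :=
      fun m => hT.ker hT _
    have hEK : ∀ m, EV (MvPolynomial J B) (n + 1) (K m) F := fun m =>
      killed hBC hRES hV _ (monomial_mem m) (K m) (hK m) fun t => Subtype.ext t.2
    refine ev_of_cover hSUM (fun m => (K m).subtype) (fun t => ?_) hK hT hEK fun Z _ _ hZ => ?_
    · obtain ⟨m, hm⟩ := htor t
      exact ⟨m, ⟨t, hm⟩, rfl⟩
    · exact lift_proj hBC hRES hV (MvPolynomial J B) Z F hZ n (Nat.lt_succ_self n)

end Pool.Agent.Q37.FS
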