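import Pool.Agent.Q37.FS.Sum
import Pool.Agent.Q37.FS.Bc
import Pool.Agent.Q37.FS.Card
import Pool.Agent.Q37.FS.Tors
import Pool.Agent.Q37.FS.Div
import Pool.Agent.Q37.FS.One
import Pool.Agent.Q37.FS.Fin
import Pool.Agent.Q37.FS.Cover
import Pool.Agent.Q37.FS.Inf
import Pool.Agent.Q37.FS.Block

/-!
# The ring theoretic main theorem
-/

namespace Pool.Agent.Q37.FS

open Pool.Agent.Q37.PC CategoryTheory CategoryTheory.Abelian TensorProduct

section

variable {k I R₀ : Type} [Field k] [CommRing R₀] [Algebra k R₀] {s t : I → R₀}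

lemma good_equiv {n : ℕ} {P P' : Type} [CommRing P] [Algebra k P] [CommRing P'] [Algebra k P']
    {β : ℕ → (R₀ →ₐ[k] P)} (h : Good k I R₀ s t n P β) (e : P ≃ₐ[k] P')
    {β' : ℕ → (R₀ →ₐ[k] P')} (he : ∀ d x, β' d x = e (β d x)) : Good k I R₀ s t n P' β' := by
  intro R _ _ Z M _ _ _ _ _ _ _ hd j hj
  let _ : Algebra P R := ((algebraMap P' R).comp (e : P →+* P')).toAlgebra
  let _ : Module P M := Module.compHom M (e : P →+* P')
  let _ : Algebra P P' := (e : P →+* P').toAlgebra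
  have : IsScalarTower P P' M := IsScalarTower.of_algebraMap_smul fun _ _ => rfl
  have : IsScalarTower P R M := IsScalarTower.of_algebraMap_smul fun r m =>
    algebraMap_smul R (e r) m
  have hsm : ∀ (b x : P), e (b • x) = b • e x := fun b x => by
    simp [Algebra.smul_def, RingHom.algebraMap_toAlgebra]
  have : Module.Free P P' := Module.Free.of_equiv ({ e with map_smul' := hsm } : P ≃ₗ[P] P')
  have : Module.Free P M := Module.Free.trans (S := P') (M := M)
  refine h R Z M (fun d hdn => ?_) j hj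
  have h1 : ((algebraMap P R).comp (β d : R₀ →+* P)) =
      ((algebraMap P' R).comp (β' d : R₀ →+* P')) := by
    ext x
    change algebraMap P' R (e (β d x)) = algebraMap P' R (β' d x)
    rw [he]
  rw [h1]
  exact hd d hdn

/-- the blocks of the infinite tensor power -/
noncomputable def bet {R : Type} [CommRing R] [Algebra k R] (φ : R₀ ⊗[k] R ≃ₐ[k] R) :
    ℕ → (R₀ →ₐ[k] R)
  | 0 => (φ : R₀ ⊗[k] R →ₐ[k] R).comp Algebra.TensorProduct.includeLeft
  | d + 1 => (φ : R₀ ⊗[k] R →ₐ[k] R).comp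
      ((Algebra.TensorProduct.includeRight).comp (bet φ d))

lemma bet_eq {R : Type} [CommRing R] [Algebra k R] (φ : R₀ ⊗[k] R ≃ₐ[k] R) (d : ℕ) (x : R₀) :
    bet φ d x = φ (shift (bet φ) d x) := by
  cases d <;> rfl

end

theorem all_RES : J_RES := t_RES t_SUM
theorem all_LIFT : J_LIFT := t_LIFT t_BC all_RES
theorem all_TORS : J_TORS := t_TORS t_SUM t_BC all_RES
theorem all_STEP : J_STEP := t_STEP all_LIFT all_RES all_TORS t_DIV
theorem all_CARD : J_CARD := t_CARD all_LIFT all_STEP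
theorem all_ONE : J_ONE := t_ONE all_LIFT

theorem t_MAIN : J_MAIN := by
  let I : Type := (Cardinal.aleph Ordinal.omega0).out
  have hI : ∀ n : ℕ, Cardinal.aleph n ≤ Cardinal.mk I := by
    intro n
    rw [Cardinal.mk_out]
    exact Cardinal.aleph_le_aleph.2 (Ordinal.natCast_lt_omega0 n).le
  have hA : ∀ n, Van (MvPolynomial I (ZMod 2))
      (fun j : I => (MvPolynomial.X j : MvPolynomial I (ZMod 2))) n :=
    fun n => all_CARD (ZMod 2) n I (hI n)
  obtain ⟨R₀, _, _, s, t, hnt, hst, hs, ht⟩ := t_BLOCK (ZMod 2) I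
  obtain ⟨R, _, _, hR, ⟨φ⟩⟩ := t_INF (ZMod 2) R₀
  have hG : ∀ n, Good (ZMod 2) I R₀ s t n R (bet φ) := by
    intro n
    induction n with
    | zero =>
      intro R _ _ Z M _ _ _ _ _ _ _ _ j hj
      omega
    | succ n ih => exact good_equiv (all_ONE (ZMod 2) I R₀ s t hA hs ht n R (bet φ) ih) φ (bet_eq φ)
  obtain ⟨S, _, _, hff, hS⟩ := t_COVER (ZMod 2) I R₀ R s t (bet φ) hst
  exact ⟨R, S, inferInstance, inferInstance, inferInstance, hR, hff,
    t_FIN (ZMod 2) I R₀ R s t (bet φ) hG S hS⟩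

end Pool.Agent.Q37.FS
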