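import Pool.Agent.Q37.FS.Step

/-!
# Setting a variable to zero on a free module over a polynomial ring
-/

namespace Pool.Agent.Q37.FS

open Pool.Agent.Q37.PC CategoryTheory CategoryTheory.Abelian TensorProduct

section

variable {B J : Type} [CommRing B]

open Classical in
/-- set the variable `i` to zero -/
noncomputable def kill (i : J) : MvPolynomial J B →ₐ[B] MvPolynomial J B :=
  MvPolynomial.aeval fun j => if j = i then 0 else MvPolynomial.X j

lemma kill_X_mul (i : J) (p : MvPolynomial J B) : kill i (MvPolynomial.X i * p) = 0 := by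
  rw [map_mul, kill, MvPolynomial.aeval_X, if_pos rfl, zero_mul]

lemma kill_sub (i : J) (p : MvPolynomial J B) :
    ∃ q, p - kill i p = MvPolynomial.X i * q := by
  classical
  induction p using MvPolynomial.induction_on with
  | C a => exact ⟨0, by simp [kill]⟩
  | add p q hp hq =>
    obtain ⟨p', hp'⟩ := hp
    obtain ⟨q', hq'⟩ := hq
    refine ⟨p' + q', ?_⟩
    rw [map_add, mul_add, ← hp', ← hq']
    ring
  | mul_X p j hp =>
    obtain ⟨p', hp'⟩ := hp
    by_cases hj : j = i
    · subst hj
      refine ⟨p, ?_⟩
      rw [mul_comm p, kill_X_mul, sub_zero]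
    · refine ⟨p' * MvPolynomial.X j, ?_⟩
      have h1 : kill i (MvPolynomial.X j : MvPolynomial J B) = MvPolynomial.X j := by
        rw [kill, MvPolynomial.aeval_X, if_neg hj]
      rw [map_mul, h1, ← sub_mul, hp', mul_assoc]

lemma kill_eq (i : J) (p : MvPolynomial J B) (h : i ∉ p.vars) : kill i p = p := by
  classical
  have h1 : kill i p = MvPolynomial.aeval (MvPolynomial.X : J → MvPolynomial J B) p := by
    unfold kill
    refine MvPolynomial.eval₂Hom_congr' rfl (fun j hj _ => ?_) rfl
    rw [if_neg]
    rintro rfl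
    exact h hj
  rw [h1, MvPolynomial.aeval_X_left, AlgHom.id_apply]

variable {F Λ : Type} [AddCommGroup F] [Module (MvPolynomial J B) F] [Module B F]
  [IsScalarTower B (MvPolynomial J B) F]

variable (β : Module.Basis Λ (MvPolynomial J B) F)

/-- set the variable `i` to zero in the coordinates -/
noncomputable def Kill (i : J) : F →ₗ[B] F :=
  (β.repr.symm.restrictScalars B : (Λ →₀ MvPolynomial J B) →ₗ[B] F) ∘ₗ
    (Finsupp.mapRange.linearMap (kill i).toLinearMap) ∘ₗ
    (β.repr.restrictScalars B : F →ₗ[B] (Λ →₀ MvPolynomial J B))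

lemma Kill_repr (i : J) (f : F) (l : Λ) : β.repr (Kill β i f) l = kill i (β.repr f l) := by
  simp [Kill]

lemma Kill_X_smul (i : J) (f : F) : Kill β i ((MvPolynomial.X i : MvPolynomial J B) • f) = 0 := by
  apply β.repr.injective
  ext1 l
  rw [Kill_repr, map_smul, Finsupp.smul_apply, smul_eq_mul, kill_X_mul, map_zero,
    Finsupp.zero_apply]

lemma Kill_sub (i : J) (f : F) : ∃ g, f - Kill β i f = (MvPolynomial.X i : MvPolynomial J B) • g := by
  classical
  choose q hq using fun l => kill_sub i (β.repr f l)
  refine ⟨β.repr.symm (Finsupp.onFinset (β.repr f).support (fun l => if l ∈ (β.repr f).support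
    then q l else 0) (fun l hl => ?_)), ?_⟩
  · by_contra h
    exact hl (if_neg h)
  · apply β.repr.injective
    ext1 l
    rw [map_sub, Finsupp.sub_apply, Kill_repr, map_smul, LinearEquiv.apply_symm_apply,
      Finsupp.smul_apply, Finsupp.onFinset_apply, smul_eq_mul, hq]
    by_cases hl : l ∈ (β.repr f).support
    · rw [if_pos hl]
    · rw [if_neg hl, mul_zero, ← hq, Finsupp.notMem_support_iff.1 hl, map_zero, sub_zero]

lemma Kill_eq (i : J) (f : F) (h : ∀ l, i ∉ (β.repr f l).vars) : Kill β i f = f := by
  apply β.repr.injective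
  ext1 l
  rw [Kill_repr, kill_eq i _ (h l)]

/-- the variables occurring in an element -/
noncomputable def Vars (f : F) : Set J := ⋃ l ∈ (β.repr f).support, ((β.repr f l).vars : Set J)

omit [Module B F] [IsScalarTower B (MvPolynomial J B) F] in
lemma Vars_countable (f : F) : (Vars β f).Countable :=
  Set.Countable.biUnion (Finset.countable_toSet _) fun _ _ => Finset.countable_toSet _

lemma Kill_eq' (i : J) (f : F) (h : i ∉ Vars β f) : Kill β i f = f := by
  refine Kill_eq β i f fun l hl => h ?_
  refine Set.mem_biUnion (x := l) ?_ hl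
  rw [Finset.mem_coe, Finsupp.mem_support_iff]
  intro h0
  rw [h0] at hl
  simp at hl

omit [Module B F] [IsScalarTower B (MvPolynomial J B) F] in
include β in
lemma mono_smul_injective (μ : J →₀ ℕ) :
    Function.Injective (fun f : F => (MvPolynomial.monomial μ (1 : B)) • f) := by
  intro f g hfg
  apply β.repr.injective
  ext1 l
  have h1 := DFunLike.congr_fun (congrArg β.repr hfg) l
  simp only [map_smul, Finsupp.smul_apply, smul_eq_mul] at h1
  exact (isRegular_one.monomial (m := μ)).left h1

end

end Pool.Agent.Q37.FS
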