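import Pool.Agent.Q37.FS.Lift

/-!
# The step from `B` to `B[x_i]` (job STEP)
-/

namespace Pool.Agent.Q37.FS

open Pool.Agent.Q37.PC CategoryTheory CategoryTheory.Abelian TensorProduct

section

variable {A : Type} [CommRing A] {I : Type} (s : I → A)

lemma exists_of_inv' {Z : Type} [AddCommGroup Z]
    [Module A Z] (hZ : Inv s Z) (z : Z) :
    ∃ f : Loc s →ₗ[A] Z, f 1 = z := by
  let g : Loc s →ₗ[A] Z := IsLocalizedModule.lift (mon s) (Algebra.linearMap A (Loc s))
    (LinearMap.toSpanSingleton A Z z) (isUnit_of_inv s hZ)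
  refine ⟨g, ?_⟩
  have h1 := IsLocalizedModule.lift_apply (mon s) (Algebra.linearMap A (Loc s))
    (LinearMap.toSpanSingleton A Z z) (isUnit_of_inv s hZ) 1
  simpa using h1

end

section

variable {B : Type} [CommRing B] {J I : Type} (b : I → B)

/-- the variables together with the old elements -/
noncomputable abbrev sig : J ⊕ I → MvPolynomial J B :=
  Sum.elim (fun j : J => MvPolynomial.X j) (fun i : I => MvPolynomial.C (b i))

lemma mem_mon_sig {m : MvPolynomial J B} (hm : m ∈ mon (sig (J := J) b)) :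
    ∃ (μ : J →₀ ℕ) (c : B), c ∈ mon b ∧ m = MvPolynomial.monomial μ 1 * MvPolynomial.C c := by
  induction hm using Submonoid.closure_induction with
  | mem x hx =>
    obtain ⟨i | i, rfl⟩ := hx
    · refine ⟨Finsupp.single i 1, 1, one_mem _, ?_⟩
      simp [MvPolynomial.X]
    · refine ⟨0, b i, Submonoid.subset_closure ⟨i, rfl⟩, ?_⟩
      simp
  | one => exact ⟨0, 1, one_mem _, by simp⟩
  | mul x y _ _ hx hy =>
    obtain ⟨μ, c, hc, rfl⟩ := hx
    obtain ⟨ν, d, hd, rfl⟩ := hy
    refine ⟨μ + ν, c * d, mul_mem hc hd, ?_⟩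
    have h1 : (MvPolynomial.monomial (μ + ν) (1 : B)) =
        MvPolynomial.monomial μ 1 * MvPolynomial.monomial ν 1 := by
      rw [MvPolynomial.monomial_mul, one_mul]
    rw [h1, map_mul]
    ring

/-- the intermediate module -/
abbrev NN (J : Type) : Type := MvPolynomial J B ⊗[B] Loc b

variable {b}

lemma exists_surj (x : NN b J) : ∃ c ∈ mon b, ∃ a : MvPolynomial J B,
    (MvPolynomial.C c : MvPolynomial J B) • x = a ⊗ₜ 1 := by
  induction x using TensorProduct.induction_on with
  | zero => exact ⟨1, one_mem _, 0, by simp⟩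
  | tmul a l =>
    obtain ⟨⟨r, c⟩, hr⟩ := IsLocalization.surj (mon b) l
    refine ⟨c, c.2, MvPolynomial.C r * a, ?_⟩
    rw [TensorProduct.smul_tmul', smul_eq_mul]
    have h1 : (MvPolynomial.C (c : B) : MvPolynomial J B) * a = (c : B) • a := by
      rw [MvPolynomial.C_mul']
    have h2 : (MvPolynomial.C r : MvPolynomial J B) * a = r • a := by
      rw [MvPolynomial.C_mul']
    rw [h1, h2, TensorProduct.smul_tmul, TensorProduct.smul_tmul]
    congr 1
    rw [Algebra.smul_def, Algebra.smul_def, mul_one, mul_comm]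
    exact hr
  | add x y hx hy =>
    obtain ⟨c, hc, a, ha⟩ := hx
    obtain ⟨d, hd, e, he⟩ := hy
    refine ⟨c * d, mul_mem hc hd, MvPolynomial.C d * a + MvPolynomial.C c * e, ?_⟩
    rw [smul_add, map_mul]
    rw [TensorProduct.add_tmul]
    congr 1
    · rw [mul_comm, mul_smul, ha, TensorProduct.smul_tmul', smul_eq_mul]
    · rw [mul_smul, he, TensorProduct.smul_tmul', smul_eq_mul]

lemma c_injective {c : B} (hc : c ∈ mon b) :
    Function.Injective (fun x : NN b J => (MvPolynomial.C c : MvPolynomial J B) • x) := by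
  have h1 : Inv (fun i => algebraMap B (MvPolynomial J B) (b i)) (NN b J) :=
    inv_tensor b (inv_Loc b)
  induction hc using Submonoid.closure_induction with
  | mem x hx =>
    obtain ⟨i, rfl⟩ := hx
    exact (h1 i).1
  | one =>
    intro x y hxy
    simpa using hxy
  | mul x y _ _ hx hy =>
    intro u v huv
    apply hy
    apply hx
    simpa only [map_mul, mul_smul] using huv

lemma mono_injective (μ : J →₀ ℕ) :
    Function.Injective (fun x : NN b J => (MvPolynomial.monomial μ (1 : B)) • x) := by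
  have : Module.Flat B (Loc b) := IsLocalization.flat (Loc b) (mon b)
  let g : MvPolynomial J B →ₗ[B] MvPolynomial J B :=
    LinearMap.mulLeft B (MvPolynomial.monomial μ (1 : B))
  have hg : Function.Injective g := (isRegular_one.monomial (m := μ)).left
  have h1 := Module.Flat.rTensor_preserves_injective_linearMap (M := Loc b) g hg
  have h2 : (fun x : NN b J => (MvPolynomial.monomial μ (1 : B)) • x) = g.rTensor (Loc b) := by
    funext x
    induction x using TensorProduct.induction_on with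
    | zero => simp
    | tmul a l => rw [TensorProduct.smul_tmul', LinearMap.rTensor_tmul]; rfl
    | add x y hx hy => rw [smul_add, hx, hy, map_add]
  rw [h2]
  exact h1

lemma iota_injective (ι : NN b J →ₗ[MvPolynomial J B] Loc (sig (J := J) b))
    (hι : ι (1 ⊗ₜ 1) = 1) : Function.Injective ι := by
  rw [injective_iff_map_eq_zero]
  intro x hx
  obtain ⟨c, hc, a, ha⟩ := exists_surj x
  have h1 : (a ⊗ₜ[B] (1 : Loc b) : NN b J) = a • ((1 : MvPolynomial J B) ⊗ₜ[B] (1 : Loc b)) := by
    rw [TensorProduct.smul_tmul', smul_eq_mul, mul_one]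
  have h2 : algebraMap _ (Loc (sig (J := J) b)) a = 0 := by
    have h3 : ι (a ⊗ₜ[B] (1 : Loc b)) = 0 := by
      rw [← ha, map_smul, hx, smul_zero]
    rw [h1, map_smul, hι, Algebra.smul_def, mul_one] at h3
    exact h3
  obtain ⟨⟨m, hm⟩, hma⟩ := (IsLocalization.map_eq_zero_iff (mon (sig (J := J) b)) _ a).1 h2
  obtain ⟨μ, d, hd, rfl⟩ := mem_mon_sig b hm
  have h4 : ((MvPolynomial.monomial μ (1 : B)) * MvPolynomial.C d) •
      ((MvPolynomial.C c : MvPolynomial J B) • x) = 0 := by
    rw [ha, h1, smul_smul]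
    rw [show ((MvPolynomial.monomial μ (1 : B)) * MvPolynomial.C d) * a = 0 from hma, zero_smul]
  rw [mul_smul] at h4
  apply c_injective hc
  apply c_injective hd
  apply mono_injective μ
  simpa using h4

lemma C_mem {c : B} (hc : c ∈ mon b) : (MvPolynomial.C c : MvPolynomial J B) ∈
    mon (fun i => (MvPolynomial.C (b i) : MvPolynomial J B)) := by
  induction hc using Submonoid.closure_induction with
  | mem x hx =>
    obtain ⟨i, rfl⟩ := hx
    exact Submonoid.subset_closure ⟨i, rfl⟩
  | one => rw [map_one]; exact one_mem _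
  | mul x y _ _ hx hy =>
    rw [map_mul]
    exact mul_mem hx hy

lemma torsion_quot (ι : NN b J →ₗ[MvPolynomial J B] Loc (sig (J := J) b))
    (hι : ι (1 ⊗ₜ 1) = 1)
    (hI : Inv (fun i => (MvPolynomial.C (b i) : MvPolynomial J B))
      (Loc (sig (J := J) b) ⧸ LinearMap.range ι))
    (t : Loc (sig (J := J) b) ⧸ LinearMap.range ι) :
    ∃ m : J →₀ ℕ, (MvPolynomial.monomial m (1 : B)) • t = 0 := by
  obtain ⟨l, rfl⟩ := Submodule.mkQ_surjective _ t
  obtain ⟨⟨a, ⟨m, hm⟩⟩, hr⟩ := IsLocalization.surj (mon (sig (J := J) b)) l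
  obtain ⟨μ, c, hc, rfl⟩ := mem_mon_sig b hm
  refine ⟨μ, ?_⟩
  have hu := isUnit_of_inv (fun i => (MvPolynomial.C (b i) : MvPolynomial J B)) hI
    ⟨_, C_mem hc⟩
  rw [Module.End.isUnit_iff] at hu
  apply hu.1
  change (MvPolynomial.C c : MvPolynomial J B) • ((MvPolynomial.monomial μ (1 : B)) •
    (LinearMap.range ι).mkQ l) = (MvPolynomial.C c : MvPolynomial J B) • 0
  rw [smul_zero, smul_smul, ← map_smul, Submodule.mkQ_apply, Submodule.Quotient.mk_eq_zero]
  refine ⟨a • (1 ⊗ₜ 1), ?_⟩
  rw [map_smul, hι, Algebra.smul_def, Algebra.smul_def, mul_one]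
  have hr' : l * algebraMap _ (Loc (sig (J := J) b))
    ((MvPolynomial.monomial μ (1 : B)) * MvPolynomial.C c) = algebraMap _ _ a := hr
  rw [← hr', mul_comm, mul_comm (MvPolynomial.C c)]

end

lemma Inv.res {R : Type} [CommRing R] {I I' : Type} {s : I → R} {Z : Type} [AddCommGroup Z]
    [Module R Z] (h : Inv s Z) (f : I' → I) : Inv (fun i => s (f i)) Z := fun i => h (f i)

theorem t_STEP (hLIFT : J_LIFT) (hRES : J_RES) (hTORS : J_TORS) (hDIV : J_DIV) : J_STEP := by
  intro B J _ κ hκ hB hJ I b n hV Z F _ _ _ _ _ hZ j hj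
  let _ : Module B F := Module.compHom F (algebraMap B (MvPolynomial J B))
  have : IsScalarTower B (MvPolynomial J B) F := IsScalarTower.of_algebraMap_smul fun _ _ => rfl
  have : Module.Free B F := Module.Free.trans (S := MvPolynomial J B) (M := F)
  have hlow : ∀ (Z : Type) [AddCommGroup Z] [Module (MvPolynomial J B) Z],
      Inv (sig (J := J) b) Z → ∀ j, j < n → EV (MvPolynomial J B) j Z F := by
    intro Z _ _ hZ j hj
    exact hLIFT B I b n hV (MvPolynomial J B) Z F (hZ.res Sum.inr) j hj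
  refine hRES (MvPolynomial J B) (J ⊕ I) (sig (J := J) b) (Loc (sig (J := J) b))
    (inv_Loc _) ?_ F (n + 1) ?_ Z hZ j hj
  · intro Z _ _ hZ z
    obtain ⟨f, hf⟩ := exists_of_inv' _ hZ z
    exact ⟨f, _, hf⟩
  intro j hj
  by_cases hjn : j < n
  · exact hlow _ (inv_Loc _) j hjn
  obtain rfl : j = n := by omega
  clear hj hjn hlow
  -- the main case
  obtain ⟨ι, hι⟩ := exists_of_inv b (A := MvPolynomial J B) (Z := Loc (sig (J := J) b))
    ((inv_Loc (sig (J := J) b)).res Sum.inr) 1
  have hinj := iota_injective ι hι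
  have hsurj := Submodule.mkQ_surjective (LinearMap.range ι)
  have hex : Function.Exact ι (LinearMap.range ι).mkQ := LinearMap.exact_map_mkQ_range ι
  have hIr : Inv (fun i => (MvPolynomial.C (b i) : MvPolynomial J B)) (LinearMap.range ι) :=
    Inv.congr (inv_tensor (A := MvPolynomial J B) b (inv_Loc b)) (LinearEquiv.ofInjective ι hinj)
  have hIq : Inv (fun i => (MvPolynomial.C (b i) : MvPolynomial J B))
      (Loc (sig (J := J) b) ⧸ LinearMap.range ι) :=
    Inv.quot ((inv_Loc (sig (J := J) b)).res Sum.inr) _ hIr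
  have hT : EV (MvPolynomial J B) j (Loc (sig (J := J) b) ⧸ LinearMap.range ι) F :=
    hTORS B I b j hV J _ F hIq (torsion_quot ι hι hIq)
  refine EV.mk fun θ => ?_
  have hS := sc_exact ι (LinearMap.range ι).mkQ hex hinj hsurj
  have hdiv : (Ext.mk₀ (ModuleCat.ofHom ι)).comp θ (zero_add j) = 0 := by
    have hcard : Cardinal.mk (Loc b) ≤ κ :=
      (IsLocalization.cardinalMk_le (L := Loc b) (mon b)).trans hB
    refine hDIV B J κ hκ hB hJ (Loc b) F hcard j _ fun i => ?_
    let m : Loc (sig (J := J) b) ≃ₗ[MvPolynomial J B] Loc (sig (J := J) b) :=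
      actEquiv (MvPolynomial.X i : MvPolynomial J B) (inv_Loc (sig (J := J) b) (Sum.inl i))
    let θ' := (Ext.mk₀ (ModuleCat.ofHom (m.symm : Loc (sig (J := J) b) →ₗ[MvPolynomial J B]
      Loc (sig (J := J) b)))).comp θ (zero_add j)
    refine ⟨(Ext.mk₀ (ModuleCat.ofHom ι)).comp θ' (zero_add j), ?_⟩
    have h1 : θ = (MvPolynomial.X i : MvPolynomial J B) • θ' := by
      have h2 : (MvPolynomial.X i : MvPolynomial J B) • θ' =
          ((MvPolynomial.X i : MvPolynomial J B) • Ext.mk₀ (𝟙 _)).comp θ' (zero_add j) := by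
        rw [Ext.smul_comp, Ext.mk₀_id_comp]
      rw [h2, ← Ext.mk₀_smul]
      have h3 : (MvPolynomial.X i : MvPolynomial J B) • 𝟙 (ModuleCat.of (MvPolynomial J B)
          (Loc (sig (J := J) b))) = ModuleCat.ofHom (m : Loc (sig (J := J) b)
            →ₗ[MvPolynomial J B] Loc (sig (J := J) b)) := by
        ext x
        rfl
      rw [h3]
      simp only [θ']
      rw [Ext.mk₀_comp_mk₀_assoc, ← ModuleCat.ofHom_comp]
      simp
    conv_lhs => rw [h1]
    rw [Ext.comp_smul]
  obtain ⟨y, hy⟩ := Ext.contravariant_sequence_exact₂ hS (ModuleCat.of _ F) θ hdiv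
  rw [← hy, hT.zero y, Ext.comp_zero]

end Pool.Agent.Q37.FS
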