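import Pool.Agent.Q37.PC.ExtLem

/-!
# Project FS (MP_9fe44b_al): a faithfully flat `R → S` with `RHom_R(S, R) = 0`

`EV R j X Y` (file `Pool.Agent.Q37.PC.ExtLem`) says `Ext^j_R(X, Y) = 0`; everything is in `Type`.
-/

namespace Pool.Agent.Q37.FS

open Pool.Agent.Q37.PC CategoryTheory CategoryTheory.Abelian TensorProduct

/-- the elements `s i` act bijectively on the module `Z` -/
def Inv {R : Type} [CommRing R] {I : Type} (s : I → R) (Z : Type) [AddCommGroup Z]
    [Module R Z] : Prop :=
  ∀ i, Function.Bijective (fun z : Z => s i • z)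

/-- `Ext^j_B(Z, F) = 0` for all `j < n`, all free `F` and all `Z` on which the `b i` are
invertible -/
def Van (B : Type) [CommRing B] {I : Type} (b : I → B) (n : ℕ) : Prop :=
  ∀ (Z F : Type) [AddCommGroup Z] [Module B Z] [AddCommGroup F] [Module B F] [Module.Free B F],
    Inv b Z → ∀ j, j < n → EV B j Z F

/-- JOB SUM: `Ext^j` out of a direct sum.
Proof: induction on `j` with the module `Y` varying.  Embed `Y` into an injective module `E`
(`Module.Injective`), `0 → Y → E → Y' → 0`.  `j = 0`: a map out of the direct sum is zero when it is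
zero on all summands.  `j = 1`: `EV.of_lift`: a map `⨁ X i → Y'` lifts to `E` because all components
lift (`EV.lift`).  `j + 2`: `EV.cov3` gives `Ext^{j+1}(X i, Y') = 0`, then `EV.cov1`. -/
def J_SUM : Prop :=
  ∀ (R : Type) [CommRing R] (ι : Type) (X : ι → Type) [∀ i, AddCommGroup (X i)]
    [∀ i, Module R (X i)] (Y : Type) [AddCommGroup Y] [Module R Y] (j : ℕ),
    (∀ i, EV R j (X i) Y) → EV R j (DirectSum ι X) Y

/-- JOB BC: base change along an arbitrary ring map for a flat first variable.
Proof: induction on `j`, `X` varying: `0 → K → P → X → 0` with `P` free; `K` is flat because `X` is,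
and the sequence stays exact after `R ⊗_A -` because `X` is flat.  `j = 0`: `A`-linear maps
`X → Y` are `R`-linear maps `R ⊗ X → Y`.  `j = 1`: `EV.extend` and `EV.of_extend`.  `j + 2`:
`EV.con1` and `EV.con3`. -/
def J_BC : Prop :=
  ∀ (A R : Type) [CommRing A] [CommRing R] [Algebra A R] (X Y : Type) [AddCommGroup X]
    [Module A X] [Module.Flat A X] [AddCommGroup Y] [Module R Y] [Module A Y]
    [IsScalarTower A R Y] (j : ℕ), EV A j X Y → EV R j (R ⊗[A] X) Y

/-- JOB RES: dimension shifting.
Proof: by induction on `j < n` for all `Z`: the maps `N → Z` give a surjection from the direct sum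
of copies of `N` indexed by `Z`; its kernel again satisfies `Inv s`; use `J_SUM`, `EV.con3` and for
`j = 0` the injectivity of `Hom(Z, Y) → Hom(⨁ N, Y)`. -/
def J_RES : Prop :=
  ∀ (R : Type) [CommRing R] (I : Type) (s : I → R) (N : Type) [AddCommGroup N] [Module R N],
    Inv s N →
    (∀ (Z : Type) [AddCommGroup Z] [Module R Z], Inv s Z → ∀ z : Z, ∃ f : N →ₗ[R] Z,
      z ∈ LinearMap.range f) →
    ∀ (Y : Type) [AddCommGroup Y] [Module R Y] (n : ℕ), (∀ j, j < n → EV R j N Y) →
    ∀ (Z : Type) [AddCommGroup Z] [Module R Z], Inv s Z → ∀ j, j < n → EV R j Z Y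

/-- JOB LIFT: the vanishing for `B` gives the vanishing over every `B`-algebra.
Proof: `L` = localization of `B` at the submonoid generated by the `b i`; it is flat over `B`,
`Inv b L`; `N = A ⊗_B L` satisfies the hypotheses of `J_RES` (universal property: an `A`-module `Z`
with `Inv` receives for each `z` a `B`-linear map `L → Z`, `1 ↦ z`, by `IsLocalizedModule.lift`,
hence an `A`-linear map `A ⊗_B L → Z`), and `Ext_A^j(A ⊗_B L, F) = 0` by `J_BC`. -/
def J_LIFT : Prop :=
  ∀ (B : Type) [CommRing B] (I : Type) (b : I → B) (n : ℕ), Van B b n →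
    ∀ (A : Type) [CommRing A] [Algebra B A] (Z F : Type) [AddCommGroup Z] [Module A Z]
      [AddCommGroup F] [Module A F] [Module B F] [IsScalarTower B A F] [Module.Free B F],
      Inv (fun i => algebraMap B A (b i)) Z → ∀ j, j < n → EV A j Z F

/-- JOB TORS: torsion modules in the step from `B` to `A = B[x_i : i ∈ J]`.
Proof: the conclusion of `J_LIFT` is available (`EV A j Z F' = 0` for `j < n`, `F'` free over `B`).
(1) `Ext^n_A(T, F) = 0` for a module `T` killed by one variable `x_i`: if `n = 0` a map `T → F` has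
image killed by `x_i`, which is a nonzerodivisor on the free module `F`.  If `n = m + 1`:
`0 → F → F → F/x_i F → 0` (multiplication by `x_i`), `F / x_i F` is free over `B` (or a direct
summand of a free `B`-module, enough by `EV.retract_right`), so `Ext^m_A(T, F/x_iF) = 0`, hence
multiplication by `x_i` is injective on `Ext^n_A(T, F)`, and it is zero.
(2) the same for `T` killed by a monomial, by induction on the degree (`EV.con2` for
`0 → x_i T → T → T/x_i T → 0`).
(3) general `T`: let `L` be the localization of `A` at the monoid generated by the `C (b i)`; every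
`t : T` killed by the monomial `m` gives `L/mL → T`; `⨁_t L/m_t L → T` is surjective with kernel
`K`, `Inv (C ∘ b) K`; use `J_SUM` and `EV.con3` with `Ext^{n-1}_A(K, F) = 0` (`n = 0`: directly). -/
def J_TORS : Prop :=
  ∀ (B : Type) [CommRing B] (I : Type) (b : I → B) (n : ℕ), Van B b n →
    ∀ (J : Type) (T F : Type) [AddCommGroup T] [Module (MvPolynomial J B) T]
      [AddCommGroup F] [Module (MvPolynomial J B) F] [Module.Free (MvPolynomial J B) F],
      Inv (fun i => (MvPolynomial.C (b i) : MvPolynomial J B)) T →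
      (∀ t : T, ∃ m : J →₀ ℕ, (MvPolynomial.monomial m (1 : B)) • t = 0) →
      EV (MvPolynomial J B) n T F

/-- JOB DIV: an `Ext` class of a small module which is divisible by too many variables is zero.
Proof by induction on `n`.  `A = MvPolynomial J B`, `F` free over `A`.
`n = 0`: a `B`-linear `f : X → F`; its at most `κ` values involve at most `κ` variables, choose
`i` not involved; `f = x_i f_i`, so the values of `f` are divisible by `x_i` and do not involve it:
`f = 0`.  `n = 1`: `0 → K → P → X → 0` with `P` free over `B` on the set `X`, `#K ≤ κ`;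
`η` comes from `f : K → F`, `η = x_i η_i` with `η_i` from `f_i`, so `f - x_i f_i` extends to
`g : P → F`; let `i` be a variable not involved in the values of `f` and `π : F → F` the `B`-linear
projection that kills `x_i F` and is the identity on elements not involving `x_i`; then
`f = π f = (π g)|_K` extends, so `η = 0`.  `n + 2`: the connecting map
`Ext^{n+1}(A ⊗ K, F) → Ext^{n+2}(A ⊗ X, F)` is an `A`-linear bijection. -/
def J_DIV : Prop :=
  ∀ (B J : Type) [CommRing B] (κ : Cardinal.{0}), Cardinal.aleph0 ≤ κ → Cardinal.mk B ≤ κ →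
    κ < Cardinal.mk J →
    ∀ (X F : Type) [AddCommGroup X] [Module B X] [AddCommGroup F]
      [Module (MvPolynomial J B) F]
      [Module.Free (MvPolynomial J B) F], Cardinal.mk X ≤ κ → ∀ (n : ℕ)
      (η : Ext (ModuleCat.of (MvPolynomial J B) (MvPolynomial J B ⊗[B] X))
        (ModuleCat.of (MvPolynomial J B) F) n),
      (∀ i : J, ∃ η' : Ext (ModuleCat.of (MvPolynomial J B) (MvPolynomial J B ⊗[B] X))
        (ModuleCat.of (MvPolynomial J B) F) n, η = (MvPolynomial.X i : MvPolynomial J B) • η') →
      η = 0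

/-- JOB STEP. -/
def J_STEP : Prop :=
  ∀ (B J : Type) [CommRing B] (κ : Cardinal.{0}), Cardinal.aleph0 ≤ κ → Cardinal.mk B ≤ κ →
    κ < Cardinal.mk J →
    ∀ (I : Type) (b : I → B) (n : ℕ), Van B b n →
      Van (MvPolynomial J B) (Sum.elim (fun j : J => MvPolynomial.X j)
        (fun i : I => MvPolynomial.C (b i))) (n + 1)

/-- JOB CARD: the vanishing theorem for a polynomial ring in at least `ℵ_n` variables over a
countable field.
Proof: `n = 0` is trivial.  Step: `J` with `ℵ_{n+1} ≤ #J`; choose `S ⊆ J` with `#S = ℵ_n`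
(`Cardinal.le_mk_iff_exists_set`), the complement `Sᶜ` has cardinality `> ℵ_n`; `B = MvPolynomial S k`
has cardinality `ℵ_n`; apply `J_STEP` with `κ = ℵ_n` to `B` and the index type `Sᶜ`; transport along
`MvPolynomial Sᶜ (MvPolynomial S k) ≃ MvPolynomial (Sᶜ ⊕ S) k ≃ MvPolynomial J k`
(`MvPolynomial.sumAlgEquiv`, `MvPolynomial.renameEquiv`); `EV` over isomorphic rings: see `J_EQ`. -/
def J_CARD : Prop :=
  ∀ (k : Type) [Field k] [Countable k] (n : ℕ) (J : Type), Cardinal.aleph n ≤ Cardinal.mk J →
    Van (MvPolynomial J k) (fun j : J => (MvPolynomial.X j : MvPolynomial J k)) n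

/-- JOB EQ: `EV` over isomorphic rings. (`ModuleCat.restrictScalars` along a ring isomorphism is an
equivalence; or by dimension shifting; or `e.rec`-style.) -/
def J_EQ : Prop :=
  ∀ (A R : Type) [CommRing A] [CommRing R] (e : A ≃+* R) (X Y : Type) [AddCommGroup X]
    [Module R X] [AddCommGroup Y] [Module R Y] (j : ℕ),
    (letI := Module.compHom X (e : A →+* R); letI := Module.compHom Y (e : A →+* R);
      EV A j X Y) → EV R j X Y

/-- `R₀` embeds (as an `R₀`-module) into an `R₀`-module which is free over `k[σ_i : i ∈ I]` -/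
def Emb (k R₀ I : Type) [Field k] [CommRing R₀] [Algebra k R₀] (σ : I → R₀) : Prop :=
  ∃ (V : Type) (_ : AddCommGroup V) (_ : Module R₀ V) (f : R₀ →ₗ[R₀] V),
    Function.Injective f ∧
    @Module.Free (MvPolynomial I k) V _ _
      (Module.compHom V ((MvPolynomial.aeval σ : MvPolynomial I k →ₐ[k] R₀) :
        MvPolynomial I k →+* R₀))

/-- JOB BLOCK: the block ring `k[s_i, t_i, a_ij, b_ij] / (a_ij s_i + b_ij t_j = 1)`.
Proof: let `W = k[s^±, t^±][a_ij]` and `b_ij = (1 - a_ij s_i) t_j^{-1} ∈ W`; `R₀` is the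
subalgebra of `W` generated by all `s_i, t_i, a_ij, b_ij`.  `R₀` lies in `V = k[s][t^±][a_ij]`,
which is free over `k[s]`.  The `k`-algebra involution `θ` of `W` with `s_i ↦ t_i`, `t_i ↦ s_i`,
`a_ij ↦ b_ji` satisfies `θ(b_ij) = a_ji`, `θ² = 1`, so `θ(R₀) = R₀`, and `R₀` lies in `θ(V)`, which
is free over `k[t]`. -/
def J_BLOCK : Prop :=
  ∀ (k : Type) [Field k] (I : Type), ∃ (R₀ : Type) (_ : CommRing R₀) (_ : Algebra k R₀)
    (s t : I → R₀), Nontrivial R₀ ∧ (∀ i j, IsCoprime (s i) (t j)) ∧ Emb k R₀ I s ∧ Emb k R₀ I t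

/-- JOB INF: the infinite tensor power of a commutative algebra.
Proof idea: `R = MvPolynomial (ℕ × R₀) k` modulo the ideal generated by the relations which say that
for each `d` the map `x ↦ X (d, x)` is a `k`-algebra homomorphism; both `R₀ ⊗ R` and `R` have the
universal property of the coproduct of `ℕ` copies of `R₀`; or a direct limit of
`R₀ ⊗ (R₀ ⊗ ...)`.  Nontrivial: there is a map `R → κ` to a field (residue field of `R₀`), or
`R₀` free over `k`. -/
def J_INF : Prop :=
  ∀ (k R₀ : Type) [Field k] [CommRing R₀] [Algebra k R₀] [Nontrivial R₀],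
    ∃ (R : Type) (_ : CommRing R) (_ : Algebra k R), Nontrivial R ∧
      Nonempty (R₀ ⊗[k] R ≃ₐ[k] R)

/-- block `d` is decided on `Z` -/
def Dec {I R₀ R : Type} [CommRing R₀] [CommRing R] (s t : I → R₀) (β : R₀ →+* R) (Z : Type)
    [AddCommGroup Z] [Module R Z] : Prop :=
  Inv (fun i => β (s i)) Z ∨ Inv (fun i => β (t i)) Z

/-- vanishing below `n` over all `P`-algebras `R`, when the first `n` blocks are decided on `Z` and
`M` is free over `P` -/
def Good (k I R₀ : Type) [Field k] [CommRing R₀] [Algebra k R₀] (s t : I → R₀)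
    (n : ℕ) (P : Type) [CommRing P] [Algebra k P] (β : ℕ → (R₀ →ₐ[k] P)) : Prop :=
  ∀ (R : Type) [CommRing R] [Algebra P R] (Z M : Type) [AddCommGroup Z] [Module R Z]
    [AddCommGroup M] [Module R M] [Module P M] [IsScalarTower P R M] [Module.Free P M],
    (∀ d, d < n → Dec s t ((algebraMap P R).comp (β d : R₀ →+* P)) Z) →
    ∀ j, j < n → EV R j Z M

/-- the blocks of `R₀ ⊗ P` -/
noncomputable def shift {k R₀ P : Type} [Field k] [CommRing R₀] [Algebra k R₀] [CommRing P]
    [Algebra k P] (β : ℕ → (R₀ →ₐ[k] P)) : ℕ → (R₀ →ₐ[k] R₀ ⊗[k] P)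
  | 0 => Algebra.TensorProduct.includeLeft
  | d + 1 => (Algebra.TensorProduct.includeRight).comp (β d)

/-- JOB ONE: one more block.
Proof: `R` an algebra over `C = R₀ ⊗_k P`, `M` free over `C`, block `0` decided on `Z`, say `s`
invertible (the other case is the same with `t`).  `R₀ → V` the embedding of `Emb`, `Q = V/R₀`.
`0 → M → M ⊗_{R₀} V → M ⊗_{R₀} Q → 0` is exact (`M` is free over `C`, hence over `R₀`, hence flat),
`R`-linear for the action on `M`.  (a) `M ⊗_{R₀} V` is free over `k[s] = MvPolynomial I k`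
(`M ≅ C^(Λ)`, `C ⊗_{R₀} V ≅ P ⊗_k V`, a direct sum of copies of `V`), so
`Ext^j_R(Z, M ⊗_{R₀} V) = 0` for all `j` by `J_LIFT` and the hypothesis on `MvPolynomial I k`.
(b) `M ⊗_{R₀} Q` is free over `P` (`C ⊗_{R₀} Q ≅ P ⊗_k Q`), so `Good n P β` (with `P → C → R`)
gives `Ext^j_R(Z, M ⊗_{R₀} Q) = 0` for `j < n`.  Conclude with `EV.cov1` (and for `j = 0` with the
injectivity of `Hom(Z, M) → Hom(Z, M ⊗ V)`). -/
def J_ONE : Prop :=
  ∀ (k I R₀ : Type) [Field k] [CommRing R₀] [Algebra k R₀] (s t : I → R₀),
    (∀ n, Van (MvPolynomial I k) (fun j : I => (MvPolynomial.X j : MvPolynomial I k)) n) →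
    Emb k R₀ I s → Emb k R₀ I t →
    ∀ (n : ℕ) (P : Type) [CommRing P] [Algebra k P] (β : ℕ → (R₀ →ₐ[k] P)),
      Good k I R₀ s t n P β → Good k I R₀ s t (n + 1) (R₀ ⊗[k] P) (shift β)

/-- the algebra `S` splits block `d` -/
def Splits {I R₀ R : Type} [CommRing R₀] [CommRing R] (s t : I → R₀) (β : R₀ →+* R)
    (S : Type) [CommRing S] [Algebra R S] : Prop :=
  ∃ e : S, e * e = e ∧ (∀ i, ∃ u : S, algebraMap R S (β (s i)) * u = e) ∧
    (∀ i, ∃ v : S, algebraMap R S (β (t i)) * v = 1 - e)

/-- JOB COVER: the faithfully flat algebra.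
Proof: `E = (ℕ → Bool) → k` (or any ring of functions), `S₀ = R ⊗_k E` is free over `R`;
`e_d ∈ E` the indicator of `{ε | ε d = true}`;
`g_{d,i} = β_d(s_i) ⊗ e_d + β_d(t_i) ⊗ (1 - e_d)`; `S` = localization of `S₀` at the submonoid
generated by the `g_{d,i}`.  `S` is flat over `R`.  Faithful: for a prime (maximal) ideal `𝔭` of `R`
and each `d` either no `β_d(s_i)` lies in `𝔭` or no `β_d(t_i)` does (`IsCoprime`), let `ε d` say
which; `r ⊗ h ↦ h(ε) r` is a ring map `S₀ → κ(𝔭)` which makes the `g_{d,i}` invertible, hence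
extends to `S → κ(𝔭)`, so `𝔭 S ≠ S`
(`Module.FaithfullyFlat.iff_flat_and_proper_ideal` or similar). -/
def J_COVER : Prop :=
  ∀ (k I R₀ R : Type) [Field k] [CommRing R₀] [Algebra k R₀] [CommRing R] [Algebra k R]
    (s t : I → R₀) (β : ℕ → (R₀ →ₐ[k] R)), (∀ i j, IsCoprime (s i) (t j)) →
    ∃ (S : Type) (_ : CommRing S) (_ : Algebra R S), Module.FaithfullyFlat R S ∧
      ∀ d, Splits s t (β d : R₀ →+* R) S

/-- JOB FIN: the final vanishing.
Proof: fix `n`.  By downward induction on `m ≤ n`: for every `S`-module `Z` on which the blocks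
`d < m` are decided, `Ext^j_R(Z, M) = 0` for `j < n`: `0 → eZ → Z → Z/eZ → 0` with the idempotent
`e` of block `m` (`EV.con2`). -/
def J_FIN : Prop :=
  ∀ (k I R₀ R : Type) [Field k] [CommRing R₀] [Algebra k R₀] [CommRing R] [Algebra k R]
    (s t : I → R₀) (β : ℕ → (R₀ →ₐ[k] R)), (∀ n, Good k I R₀ s t n R β) →
    ∀ (S : Type) [CommRing S] [Algebra R S], (∀ d, Splits s t (β d : R₀ →+* R) S) →
      ∀ j, EV R j S R

instance {R S : Type} [CommRing R] [CommRing S] (f : R →+* S) :
    (ModuleCat.extendScalars.{0, 0, 0} f).Additive :=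
  (ModuleCat.extendRestrictScalarsAdj.{0, 0, 0} f).left_adjoint_additive

instance {R S : Type} [CommRing R] [CommRing S] (f : R →+* S) :
    Limits.PreservesFiniteColimits (ModuleCat.extendScalars.{0, 0, 0} f) :=
  have := (ModuleCat.extendRestrictScalarsAdj.{0, 0, 0} f).leftAdjoint_preservesColimits
  inferInstance

/-- JOB DER: passage to derived categories.
Proof: (1) `H^n` of `f^* X` is `S ⊗_R H^n(X)` (exact functors commute with homology), and `f` is
faithfully flat (`ModuleCat.reflectsIsomorphisms_extendScalars_of_faithfullyFlat`); an object of the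
derived category with vanishing homology is zero.  (2) Let `R → E` be an injective resolution
(a complex in degrees `≥ 0`); `E` is K-injective
(`Mathlib.Algebra.Homology.HomotopyCategory.KInjective`), so for a complex `Y` of `S`-modules
`Hom_{D(R)}(f_* Y, R) = Hom_{K(R)}(f_* Y, E) = Hom_{K(S)}(Y, f^! E)` with the coextension of scalars
`f^! E = Hom_R(S, E)` (`ModuleCat.restrictCoextendScalarsAdj`).  The complex `Hom_R(S, E)` is acyclic
because its cohomology is `Ext^j_R(S, R) = 0` (or: build it by splicing short exact sequences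
`0 → Z^j → E^j → Z^{j+1} → 0` and `EV.lift`), and it is a bounded below complex of injective
`S`-modules, so contractible. -/
def J_DER.{w, w'} : Prop :=
  ∀ (R S : Type) [CommRing R] [CommRing S] (f : R →+* S) (hf : f.FaithfullyFlat),
    (letI := f.toAlgebra; ∀ j, EV R j S R) →
    ∀ [HasDerivedCategory.{w} (ModuleCat.{0} R)] [HasDerivedCategory.{w'} (ModuleCat.{0} S)],
      haveI := ModuleCat.preservesFiniteLimits_extendScalars_of_flat.{0} hf.flat
      (∀ X : DerivedCategory (ModuleCat.{0} R),
        Limits.IsZero ((ModuleCat.extendScalars.{0, 0, 0} f).mapDerivedCategory.obj X) →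
          Limits.IsZero X) ∧
      (∀ (Y : DerivedCategory (ModuleCat.{0} S))
        (g : (ModuleCat.restrictScalars.{0} f).mapDerivedCategory.obj Y ⟶
          (DerivedCategory.singleFunctor (ModuleCat.{0} R) 0).obj (ModuleCat.of R R)), g = 0)

/-- the ring theoretic main theorem -/
def J_MAIN : Prop :=
  ∃ (R S : Type) (_ : CommRing R) (_ : CommRing S) (_ : Algebra R S), Nontrivial R ∧
    Module.FaithfullyFlat R S ∧ ∀ j, EV R j S R

end Pool.Agent.Q37.FS
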