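import Pool.Agent.Q37.FS.Res

/-!
# `Ext` out of a direct sum (job SUM)
-/

namespace Pool.Agent.Q37.FS

open Pool.Agent.Q37.PC CategoryTheory CategoryTheory.Abelian

theorem t_SUM : J_SUM := by
  intro R _ ι X _ _ Y _ _ j
  classical
  have key : ∀ j, ∀ (Y : Type) [AddCommGroup Y] [Module R Y], (∀ i, EV R j (X i) Y) →
      EV R j (DirectSum ι X) Y := by
    intro j
    induction j with
    | zero =>
      intro Y _ _ h
      rw [ev0_iff]
      intro φ
      refine DirectSum.linearMap_ext R fun i => ?_
      rw [ev0_iff.1 (h i) (φ ∘ₗ DirectSum.lof R ι X i), LinearMap.zero_comp]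
    | succ j ih =>
      intro Y _ _ h
      obtain ⟨E, _, _, hE, f, hf⟩ : ∃ (E : Type) (_ : AddCommGroup E) (_ : Module R E)
          (_ : Module.Injective R E) (f : Y →ₗ[R] E), Function.Injective f := by
        obtain ⟨P⟩ := (inferInstance : EnoughInjectives (ModuleCat.{0} R)).presentation
          (ModuleCat.of R Y)
        refine ⟨P.J, inferInstance, inferInstance, ?_, P.f.hom, ?_⟩
        · have := P.injective
          exact Module.injective_module_of_injective_object (inj := this)
        · exact (ModuleCat.mono_iff_injective _).1 P.mono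
      have hex : Function.Exact f (LinearMap.range f).mkQ := LinearMap.exact_map_mkQ_range f
      have hs := Submodule.mkQ_surjective (LinearMap.range f)
      rcases j with _ | j
      · refine EV.of_lift hex hf hs (EV.of_injective 0) fun φ => ?_
        have h1 : ∀ i, ∃ ψ : X i →ₗ[R] E, (LinearMap.range f).mkQ ∘ₗ ψ =
            φ ∘ₗ DirectSum.lof R ι X i := fun i => (h i).lift hex hf hs _
        choose ψ hψ using h1
        refine ⟨DirectSum.toModule R ι E ψ, ?_⟩
        refine DirectSum.linearMap_ext R fun i => ?_
        rw [← hψ i]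
        ext x
        simp
      · refine EV.cov1 hex hf hs (ih _ fun i => ?_) (EV.of_injective _)
        exact EV.cov3 hex hf hs (EV.of_injective _) (h i)
  exact key j Y

end Pool.Agent.Q37.FS
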